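import Mathlib

/-!
A lower bound for the Hausdorff dimension of a set of reals which contains the image of a tree of
digit sequences.
-/

set_option autoImplicit false

open Finset Filter Topology
open scoped NNReal ENNReal

namespace Pool.Agent.Lib.MP_71365f_an

/-- Product of the first digit bounds. -/
def Qp (D : ℕ → ℕ) (m : ℕ) : ℕ := ∏ j ∈ range m, D j

theorem Qp_succ (D : ℕ → ℕ) (m : ℕ) : Qp D (m + 1) = Qp D m * D m := by
  unfold Qp; rw [prod_range_succ]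

theorem Qp_pos {D : ℕ → ℕ} (hD : ∀ m, 1 ≤ D m) (m : ℕ) : 0 < Qp D m :=
  Finset.prod_pos fun j _ => hD j

/-- The digits of `x` in the mixed base `D`. -/
noncomputable def dig (D : ℕ → ℕ) (x : ℝ) (m : ℕ) : ℕ := ⌊x * Qp D (m + 1)⌋₊ % D m

theorem dig_lt {D : ℕ → ℕ} (hD : ∀ m, 1 ≤ D m) (x : ℝ) (m : ℕ) : dig D x m < D m :=
  Nat.mod_lt _ (hD m)

theorem floor_succ {D : ℕ → ℕ} (hD : ∀ m, 1 ≤ D m) (x : ℝ) (m : ℕ) :
    ⌊x * Qp D (m + 1)⌋₊ = D m * ⌊x * Qp D m⌋₊ + dig D x m := by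
  have h1 : ⌊x * Qp D (m + 1)⌋₊ / D m = ⌊x * Qp D m⌋₊ := by
    rw [← Nat.floor_div_natCast]
    congr 1
    rw [Qp_succ]
    have : (D m : ℝ) ≠ 0 := by
      have := hD m
      positivity
    push_cast
    field_simp
  unfold dig
  rw [← h1, Nat.div_add_mod]

theorem floor_eq {D : ℕ → ℕ} (hD : ∀ m, 1 ≤ D m) {x x' : ℝ} (hx : x ∈ Set.Ico (0 : ℝ) 1)
    (hx' : x' ∈ Set.Ico (0 : ℝ) 1) (m : ℕ) (h : ∀ j < m, dig D x j = dig D x' j) :
    ⌊x * Qp D m⌋₊ = ⌊x' * Qp D m⌋₊ := by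
  induction m with
  | zero =>
    have e1 : ⌊x * Qp D 0⌋₊ = 0 := by
      rw [Nat.floor_eq_zero]; simpa [Qp] using hx.2
    have e2 : ⌊x' * Qp D 0⌋₊ = 0 := by
      rw [Nat.floor_eq_zero]; simpa [Qp] using hx'.2
    rw [e1, e2]
  | succ m ih =>
    rw [floor_succ hD, floor_succ hD, ih (fun j hj => h j (by omega)), h m (by omega)]

theorem abs_sub_le {D : ℕ → ℕ} (hD : ∀ m, 1 ≤ D m) {x x' : ℝ} (hx : x ∈ Set.Ico (0 : ℝ) 1)
    (hx' : x' ∈ Set.Ico (0 : ℝ) 1) (m : ℕ) (h : ∀ j < m, dig D x j = dig D x' j) :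
    |x - x'| ≤ 1 / Qp D m := by
  have hQ : (0 : ℝ) < Qp D m := by exact_mod_cast Qp_pos hD m
  have h1 := floor_eq hD hx hx' m h
  have a1 := Nat.floor_le (show 0 ≤ x * Qp D m from mul_nonneg hx.1 hQ.le)
  have a2 := Nat.lt_floor_add_one (x * Qp D m)
  have b1 := Nat.floor_le (show 0 ≤ x' * Qp D m from mul_nonneg hx'.1 hQ.le)
  have b2 := Nat.lt_floor_add_one (x' * Qp D m)
  rw [h1] at a1 a2
  rw [le_div_iff₀ hQ]
  have h2 : |x - x'| * Qp D m = |x * Qp D m - x' * Qp D m| := by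
    rw [← sub_mul, abs_mul, abs_of_pos hQ]
  rw [h2, abs_le]
  constructor <;> linarith

/-- **Digit lemma.** -/
theorem le_dimH_of_digits (D : ℕ → ℕ) (hD : ∀ m, 1 ≤ D m)
    (hQ : Tendsto (fun m => (Qp D m : ℝ)) atTop atTop)
    (Φ : (ℕ → ℕ) → ℝ) (δ : ℕ → ℝ) (hδ : ∀ m, 0 < δ m)
    (hsep : ∀ d d' : ℕ → ℕ, (∀ m, d m < D m) → (∀ m, d' m < D m) →
      ∀ m, (∀ j < m, d j = d' j) → d m ≠ d' m → δ m ≤ |Φ d - Φ d'|)
    (r : ℝ≥0) (hr : 0 < r) (C : ℝ≥0)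
    (hC : ∀ m, 1 / (Qp D m : ℝ) ≤ C * δ m ^ (r : ℝ))
    (S : Set ℝ) (hS : ∀ d : ℕ → ℕ, (∀ m, d m < D m) → Φ d ∈ S) :
    (r : ℝ≥0∞) ≤ dimH S := by
  classical
  set Ψ : ℝ → ℝ := fun x => Φ (dig D x) with hΨ
  have key : ∀ x ∈ Set.Ico (0 : ℝ) 1, ∀ x' ∈ Set.Ico (0 : ℝ) 1,
      |x - x'| ≤ C * |Ψ x - Ψ x'| ^ (r : ℝ) := by
    intro x hx x' hx'
    by_cases hxx : x = x'
    · subst hxx
      simp only [sub_self, abs_zero]
      positivity
    have hex : ∃ m, dig D x m ≠ dig D x' m := by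
      by_contra hcon
      push Not at hcon
      have hpos : 0 < |x - x'| := abs_pos.mpr (sub_ne_zero.mpr hxx)
      obtain ⟨m, hm⟩ := (hQ.eventually_gt_atTop (1 / |x - x'|)).exists
      have h1 := abs_sub_le hD hx hx' m (fun j _ => hcon j)
      have hQm : (0 : ℝ) < Qp D m := by exact_mod_cast Qp_pos hD m
      rw [div_lt_iff₀ hpos] at hm
      rw [le_div_iff₀ hQm] at h1
      linarith
    set m := Nat.find hex with hm
    have h1 : dig D x m ≠ dig D x' m := Nat.find_spec hex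
    have h2 : ∀ j < m, dig D x j = dig D x' j := fun j hj => not_not.mp (Nat.find_min hex hj)
    have h3 := abs_sub_le hD hx hx' m h2
    have h4 := hsep (dig D x) (dig D x') (dig_lt hD x) (dig_lt hD x') m h2 h1
    calc |x - x'| ≤ 1 / Qp D m := h3
      _ ≤ C * δ m ^ (r : ℝ) := hC m
      _ ≤ C * |Ψ x - Ψ x'| ^ (r : ℝ) := by
          have := (hδ m).le
          gcongr
  have hinj : Set.InjOn Ψ (Set.Ico (0 : ℝ) 1) := by
    intro x hx x' hx' h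
    have h1 := key x hx x' hx'
    rw [h, sub_self, abs_zero, Real.zero_rpow (by exact_mod_cast hr.ne'), mul_zero] at h1
    have h2 := le_antisymm h1 (abs_nonneg _)
    exact sub_eq_zero.mp (abs_eq_zero.mp h2)
  set g : ℝ → ℝ := Function.invFunOn Ψ (Set.Ico (0 : ℝ) 1) with hg
  have hgl : ∀ x ∈ Set.Ico (0 : ℝ) 1, g (Ψ x) = x := fun x hx => hinj.leftInvOn_invFunOn hx
  have hold : HolderOnWith C r g (Ψ '' Set.Ico (0 : ℝ) 1) := by
    rintro _ ⟨x, hx, rfl⟩ _ ⟨x', hx', rfl⟩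
    rw [hgl x hx, hgl x' hx', edist_dist, edist_dist, Real.dist_eq, Real.dist_eq,
      ENNReal.ofReal_rpow_of_nonneg (abs_nonneg _) (by positivity),
      show (C : ℝ≥0∞) = ENNReal.ofReal (C : ℝ) by simp, ← ENNReal.ofReal_mul (by positivity)]
    exact ENNReal.ofReal_le_ofReal (key x hx x' hx')
  have himg : g '' (Ψ '' Set.Ico (0 : ℝ) 1) = Set.Ico (0 : ℝ) 1 := by
    rw [Set.image_image]
    ext y
    constructor
    · rintro ⟨x, hx, rfl⟩
      simpa only [hgl x hx] using hx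
    · intro hy
      exact ⟨y, hy, hgl y hy⟩
  have h1 : dimH (Set.Ico (0 : ℝ) 1) = 1 := by
    have : Set.Ico (0 : ℝ) 1 ∈ 𝓝 (1 / 2 : ℝ) := Ico_mem_nhds (by norm_num) (by norm_num)
    rw [Real.dimH_of_mem_nhds this]
    simp
  have h2 := hold.dimH_image_le hr
  rw [himg, h1] at h2
  have h3 : dimH (Ψ '' Set.Ico (0 : ℝ) 1) ≤ dimH S := by
    apply dimH_mono
    rintro _ ⟨x, _, rfl⟩
    exact hS _ (dig_lt hD x)
  refine le_trans ?_ h3
  rwa [ENNReal.le_div_iff_mul_le (Or.inl (by exact_mod_cast hr.ne')) (Or.inl ENNReal.coe_ne_top),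
    one_mul] at h2

end Pool.Agent.Lib.MP_71365f_an
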