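import Mathlib

/-!
The image of a set under a power series.
-/

set_option autoImplicit false

namespace Pool.Agent.Lib.MP_71365f_an

/-- The image `f(K)` of a set `K` of reals under the power series `f = ∑ a_i x^i`: the set of all
sums `∑ a_i x_{i,1} x_{i,2} ⋯ x_{i,i}` with all `x_{i,j}` in `K` (the sum of the sets `a_i K^i`,
where `K^i` is the set of the products of `i` elements of `K`). -/
def psImage (a : ℕ → ℝ) (K : Set ℝ) : Set ℝ :=
  {z | ∃ x : ℕ → ℕ → ℝ, (∀ i j, x i j ∈ K) ∧ z = ∑' i, a i * ∏ j ∈ Finset.range i, x i j}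

end Pool.Agent.Lib.MP_71365f_an
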