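import Mathlib

/-!
The coefficients of the power series and their elementary properties.
-/

set_option autoImplicit false

open Finset Filter Topology

namespace Pool.Agent.Lib.MP_71365f_an

/-- The length of the blocks of indices between `2 ^ p` and `2 ^ (p + 1)`. -/
def hh (p : ℕ) : ℕ := 2 ^ (p - Nat.log 2 (p ^ 2))

/-- `∑ j < i, ⌊log₂ j⌋`. -/
def Lam (i : ℕ) : ℕ := ∑ j ∈ range i, Nat.log 2 j

/-- The small perturbation of the exponent. -/
noncomputable def tt (i : ℕ) : ℝ :=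
  ((i % hh (Nat.log 2 i) : ℕ) : ℝ) ^ 2 / (Nat.log 2 i * (hh (Nat.log 2 i) : ℝ) ^ 2)

/-- The exponent of the coefficient. -/
noncomputable def tau (w : ℝ) (i : ℕ) : ℝ := w * Lam i + tt i

/-- The coefficient. -/
noncomputable def coef (w : ℝ) (i : ℕ) : ℝ := Real.exp (-tau w i)

theorem hh_pos (p : ℕ) : 0 < hh p := by unfold hh; positivity

theorem Lam_succ (i : ℕ) : Lam (i + 1) = Lam i + Nat.log 2 i := by
  unfold Lam; rw [sum_range_succ]

theorem Lam_mono : Monotone Lam := by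
  apply monotone_nat_of_le_succ
  intro i
  rw [Lam_succ]; omega

theorem le_Lam (i : ℕ) : i ≤ Lam i + 2 := by
  induction i with
  | zero => omega
  | succ i ih =>
    rw [Lam_succ]
    rcases Nat.lt_or_ge i 2 with h | h
    · omega
    · have : 1 ≤ Nat.log 2 i := Nat.log_pos (by norm_num) h
      omega

theorem Lam_add (I k : ℕ) (hI : 2 ≤ I) : Lam I + k ≤ Lam (I + k) := by
  induction k with
  | zero => simp
  | succ k ih =>
    rw [← add_assoc I k 1, Lam_succ]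
    have : 1 ≤ Nat.log 2 (I + k) := Nat.log_pos (by norm_num) (by omega)
    omega

theorem Lam_add_mul (I k m : ℕ) (hI : 2 ^ m ≤ I) : Lam I + m * k ≤ Lam (I + k) := by
  induction k with
  | zero => simp
  | succ k ih =>
    rw [← add_assoc I k 1, Lam_succ]
    have : m ≤ Nat.log 2 (I + k) := Nat.le_log_of_pow_le (by norm_num) (by omega)
    rw [mul_add]
    omega

theorem eventually_mul_le_Lam (C : ℕ) : ∀ᶠ I : ℕ in atTop, C * I ≤ Lam I := by
  filter_upwards [eventually_ge_atTop (2 * 2 ^ (2 * C))] with I hI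
  obtain ⟨k, rfl⟩ := Nat.exists_eq_add_of_le (show 2 ^ (2 * C) ≤ I by omega)
  have h1 := Lam_add_mul (2 ^ (2 * C)) k (2 * C) le_rfl
  have h2 : 2 ^ (2 * C) ≤ k := by omega
  nlinarith

theorem tendsto_Lam_div : Tendsto (fun I : ℕ => (Lam I : ℝ) / I) atTop atTop := by
  rw [tendsto_atTop]
  intro b
  obtain ⟨C, hC⟩ := exists_nat_ge b
  filter_upwards [eventually_mul_le_Lam C, eventually_gt_atTop 0] with I hI hI0
  have : (0 : ℝ) < I := by exact_mod_cast hI0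
  rw [le_div_iff₀ this]
  calc b * I ≤ C * I := by gcongr
    _ ≤ Lam I := by exact_mod_cast hI

theorem prod_le (Δ I : ℕ) :
    ∏ i ∈ range I, (i * Δ + 1) ≤ (2 * (Δ + 1)) ^ I * 2 ^ (Lam I) := by
  induction I with
  | zero => simp [Lam]
  | succ I ih =>
    rw [prod_range_succ, Lam_succ, pow_succ, pow_add]
    have h1 : I * Δ + 1 ≤ 2 * (Δ + 1) * 2 ^ (Nat.log 2 I) := by
      have h2 : I < 2 ^ (Nat.log 2 I + 1) := Nat.lt_pow_succ_log_self (by norm_num) I
      rw [pow_succ] at h2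
      have h3 : 1 ≤ 2 ^ (Nat.log 2 I) := Nat.one_le_two_pow
      nlinarith
    calc (∏ i ∈ range I, (i * Δ + 1)) * (I * Δ + 1)
        ≤ ((2 * (Δ + 1)) ^ I * 2 ^ (Lam I)) * (2 * (Δ + 1) * 2 ^ (Nat.log 2 I)) :=
          Nat.mul_le_mul ih h1
      _ = _ := by ring

theorem tt_nonneg (i : ℕ) : 0 ≤ tt i := by unfold tt; positivity

theorem tt_le_one (i : ℕ) : tt i ≤ 1 := by
  unfold tt
  rcases Nat.eq_zero_or_pos (Nat.log 2 i) with h | h
  · rw [h]; simp
  · have h1 : (1 : ℝ) ≤ Nat.log 2 i := by exact_mod_cast h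
    have h2 : ((i % hh (Nat.log 2 i) : ℕ) : ℝ) ≤ hh (Nat.log 2 i) := by
      exact_mod_cast (Nat.mod_lt _ (hh_pos _)).le
    have h3 : (0 : ℝ) < hh (Nat.log 2 i) := by exact_mod_cast hh_pos _
    rw [div_le_one (by positivity)]
    have h4 : ((i % hh (Nat.log 2 i) : ℕ) : ℝ) ^ 2 ≤ (hh (Nat.log 2 i) : ℝ) ^ 2 := by gcongr
    nlinarith [sq_nonneg (hh (Nat.log 2 i) : ℝ)]

theorem coef_pos (w : ℝ) (i : ℕ) : 0 < coef w i := Real.exp_pos _

theorem coef_le (w : ℝ) (i : ℕ) : coef w i ≤ Real.exp (-(w * Lam i)) := by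
  unfold coef tau
  apply Real.exp_le_exp.mpr
  have := tt_nonneg i
  linarith

theorem coef_add_le {w : ℝ} (hw : 0 < w) (I k : ℕ) (hI : 2 ≤ I) :
    coef w (k + I) ≤ Real.exp (-(w * Lam I)) * (Real.exp (-w)) ^ k := by
  refine (coef_le w _).trans ?_
  rw [← Real.exp_nat_mul, ← Real.exp_add]
  apply Real.exp_le_exp.mpr
  have h1 : (Lam I : ℝ) + k ≤ Lam (k + I) := by
    rw [add_comm k I]
    exact_mod_cast Lam_add I k hI
  nlinarith

theorem summable_coef {w : ℝ} (hw : 0 < w) : Summable (coef w) := by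
  rw [← summable_nat_add_iff 2]
  have h1 : Real.exp (-w) < 1 := by
    rw [Real.exp_lt_one_iff]; linarith
  refine Summable.of_nonneg_of_le (fun k => (coef_pos w _).le) (fun k => coef_add_le hw 2 k le_rfl)
    ?_
  exact (summable_geometric_of_lt_one (Real.exp_pos _).le h1).mul_left _

theorem tail_le {w : ℝ} (hw : 0 < w) (I : ℕ) (hI : 2 ≤ I) :
    ∑' k, coef w (k + I) ≤ Real.exp (-(w * Lam I)) * (1 - Real.exp (-w))⁻¹ := by
  have h1 : Real.exp (-w) < 1 := by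
    rw [Real.exp_lt_one_iff]; linarith
  have h2 := summable_geometric_of_lt_one (Real.exp_pos (-w)).le h1
  calc ∑' k, coef w (k + I) ≤ ∑' k : ℕ, Real.exp (-(w * Lam I)) * (Real.exp (-w)) ^ k :=
        Summable.tsum_le_tsum (fun k => coef_add_le hw I k hI)
          ((summable_nat_add_iff I).mpr (summable_coef hw)) (h2.mul_left _)
    _ = _ := by rw [tsum_mul_left, tsum_geometric_of_lt_one (Real.exp_pos _).le h1]

/-! ### Blocks -/

theorem sq_lt (p : ℕ) : p ^ 2 < 2 ^ (p + 1) := by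
  induction p using Nat.strong_induction_on with
  | _ p ih =>
    rcases Nat.lt_or_ge p 5 with h | h
    · interval_cases p <;> norm_num
    · obtain ⟨q, rfl⟩ := Nat.exists_eq_add_of_le' (show 1 ≤ p by omega)
      have h1 := ih q (by omega)
      have h2 : 2 ^ (q + 1 + 1) = 2 * 2 ^ (q + 1) := by ring
      rw [h2]
      nlinarith

theorem log_sq_le (p : ℕ) : Nat.log 2 (p ^ 2) ≤ p := by
  rcases Nat.eq_zero_or_pos p with h | h
  · subst h; simp
  · have := Nat.log_lt_of_lt_pow (by positivity) (sq_lt p)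
    omega

theorem hh_mul (p : ℕ) : hh p * 2 ^ (Nat.log 2 (p ^ 2)) = 2 ^ p := by
  unfold hh
  rw [← pow_add]
  congr 1
  have := log_sq_le p
  omega

theorem hh_dvd (p : ℕ) : hh p ∣ 2 ^ p := ⟨_, (hh_mul p).symm⟩

theorem hh_le (p : ℕ) : hh p ≤ 2 ^ p := Nat.le_of_dvd (by positivity) (hh_dvd p)

theorem hh_mul_sq_lt (p : ℕ) : hh p * p ^ 2 < 2 ^ (p + 1) := by
  have h1 : p ^ 2 < 2 ^ (Nat.log 2 (p ^ 2) + 1) := Nat.lt_pow_succ_log_self (by norm_num) _
  calc hh p * p ^ 2 < hh p * 2 ^ (Nat.log 2 (p ^ 2) + 1) := Nat.mul_lt_mul_of_pos_left h1 (hh_pos p)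
    _ = 2 ^ (p + 1) := by rw [pow_succ, ← mul_assoc, hh_mul, pow_succ]

theorem le_hh_mul_sq {p : ℕ} (hp : 1 ≤ p) : 2 ^ p ≤ hh p * p ^ 2 := by
  have h1 : 2 ^ (Nat.log 2 (p ^ 2)) ≤ p ^ 2 := Nat.pow_log_le_self 2 (by positivity)
  calc 2 ^ p = hh p * 2 ^ (Nat.log 2 (p ^ 2)) := (hh_mul p).symm
    _ ≤ _ := Nat.mul_le_mul_left _ h1

theorem block_log {p q l : ℕ} (h1 : 2 ^ p ≤ hh p * q) (h2 : hh p * (q + 1) ≤ 2 ^ (p + 1))
    (hl : l < hh p) : Nat.log 2 (hh p * q + l) = p := by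
  rw [Nat.log_eq_iff (Or.inr ⟨by norm_num, by have := Nat.one_le_two_pow (n := p); omega⟩)]
  constructor
  · omega
  · rw [mul_add] at h2; omega

theorem block_mod {p q l : ℕ} (hl : l < hh p) : (hh p * q + l) % hh p = l := by
  rw [Nat.mul_add_mod, Nat.mod_eq_of_lt hl]

theorem block_div {p q l : ℕ} (hl : l < hh p) : (hh p * q + l) / hh p = q := by
  rw [Nat.mul_add_div (hh_pos p), Nat.div_eq_of_lt hl, add_zero]

theorem block_lower {i : ℕ} (hi : 1 ≤ i) :
    2 ^ (Nat.log 2 i) ≤ hh (Nat.log 2 i) * (i / hh (Nat.log 2 i)) := by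
  set p := Nat.log 2 i
  have h1 : 2 ^ p ≤ i := Nat.pow_log_le_self 2 (by omega)
  obtain ⟨c, hc⟩ := hh_dvd p
  rw [hc]
  apply Nat.mul_le_mul_left
  rw [Nat.le_div_iff_mul_le (hh_pos p), mul_comm, ← hc]
  exact h1

theorem block_upper (i : ℕ) :
    hh (Nat.log 2 i) * (i / hh (Nat.log 2 i) + 1) ≤ 2 ^ (Nat.log 2 i + 1) := by
  set p := Nat.log 2 i
  have h1 : i < 2 ^ (p + 1) := Nat.lt_pow_succ_log_self (by norm_num) i
  obtain ⟨c, hc⟩ := hh_dvd p
  rw [pow_succ, hc, mul_assoc]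
  apply Nat.mul_le_mul_left
  rw [Nat.succ_le_iff, Nat.div_lt_iff_lt_mul (hh_pos p)]
  rw [pow_succ, hc] at h1
  calc i < hh p * c * 2 := h1
    _ = c * 2 * hh p := by ring

theorem block_Lam {p q : ℕ} (h1 : 2 ^ p ≤ hh p * q) (h2 : hh p * (q + 1) ≤ 2 ^ (p + 1)) {l : ℕ}
    (hl : l ≤ hh p) : Lam (hh p * q + l) = Lam (hh p * q) + p * l := by
  induction l with
  | zero => simp
  | succ l ih =>
    rw [← add_assoc, Lam_succ, ih (by omega), block_log h1 h2 (by omega)]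
    ring

theorem block_tau (w : ℝ) {p q : ℕ} (h1 : 2 ^ p ≤ hh p * q) (h2 : hh p * (q + 1) ≤ 2 ^ (p + 1))
    {l : ℕ} (hl : l < hh p) :
    tau w (hh p * q + l) = w * Lam (hh p * q) + w * p * l + (l : ℝ) ^ 2 / (p * (hh p : ℝ) ^ 2) := by
  unfold tau tt
  rw [block_log h1 h2 hl, block_mod hl, block_Lam h1 h2 hl.le]
  push_cast
  ring

end Pool.Agent.Lib.MP_71365f_an
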