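import Mathlib

/-!
Counting the pairs of indices whose phases are close, and selecting a large separated set.
-/

set_option autoImplicit false

open Finset

namespace Pool.Agent.Lib.MP_71365f_an

/-- The phases of the offsets `l` and `l'` are closer than `η` modulo `β`. -/
def Close (h : ℕ) (γ β c η : ℝ) (l l' : ℕ) : Prop :=
  ∃ k : ℤ, |γ * ((l : ℝ) - l') + c * ((l : ℝ) ^ 2 - (l' : ℝ) ^ 2) / (h : ℝ) ^ 2 + k * β| < η

theorem Close.symm {h : ℕ} {γ β c η : ℝ} {l l' : ℕ} (H : Close h γ β c η l l') :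
    Close h γ β c η l' l := by
  obtain ⟨k, hk⟩ := H
  refine ⟨-k, ?_⟩
  rw [← abs_neg]
  convert hk using 2
  push_cast
  ring

theorem Close.refl {h : ℕ} {γ β c η : ℝ} (hη : 0 < η) (l : ℕ) : Close h γ β c η l l :=
  ⟨0, by simpa using hη⟩

theorem card_le_of_diff (M : Finset ℕ) (X : ℝ) (hX : 0 ≤ X)
    (h : ∀ m ∈ M, ∀ m' ∈ M, (m : ℝ) - m' < X) : (M.card : ℝ) ≤ X + 1 := by
  rcases M.eq_empty_or_nonempty with rfl | hne
  · simp; linarith
  · set m₀ := M.min' hne with hm₀
    have hsub : M ⊆ Finset.Ico m₀ (m₀ + ⌈X⌉₊) := by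
      intro m hm
      have h1 : m₀ ≤ m := M.min'_le m hm
      have h2 := h m hm m₀ (M.min'_mem hne)
      have h3 := Nat.le_ceil X
      rw [Finset.mem_Ico]
      refine ⟨h1, ?_⟩
      have h4 : (m : ℝ) < ((m₀ + ⌈X⌉₊ : ℕ) : ℝ) := by push_cast; linarith
      exact_mod_cast h4
    have h1 := Finset.card_le_card hsub
    rw [Nat.card_Ico, Nat.add_sub_cancel_left] at h1
    have h2 : (⌈X⌉₊ : ℝ) < X + 1 := Nat.ceil_lt_add_one hX
    have h3 : (M.card : ℝ) ≤ ⌈X⌉₊ := by exact_mod_cast h1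
    linarith

/-- For every difference `D` there are few close pairs. -/
theorem card_diff_le {h : ℕ} (hh : 1 ≤ h) {γ β c η : ℝ} (hc : 0 < c) (hη : 0 < η)
    (hβ : 2 * c + 2 * η ≤ β) {D : ℕ} (hD : 1 ≤ D) (M : Finset ℕ)
    (hM : ∀ m ∈ M, m + D < h ∧ Close h γ β c η (m + D) m) :
    (M.card : ℝ) ≤ η * (h : ℝ) ^ 2 / c * (D : ℝ)⁻¹ + 1 := by
  have hh0 : (0 : ℝ) < h := by exact_mod_cast hh
  have hD0 : (0 : ℝ) < D := by exact_mod_cast hD
  have hβ0 : 0 < β := by linarith
  apply card_le_of_diff _ _ (by positivity)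
  intro m hm m' hm'
  obtain ⟨h1, k, hk⟩ := hM m hm
  obtain ⟨h1', k', hk'⟩ := hM m' hm'
  have hdiff : |2 * c * D * ((m : ℝ) - m') / (h : ℝ) ^ 2 + ((k : ℝ) - k') * β| < 2 * η := by
    have e : 2 * c * D * ((m : ℝ) - m') / (h : ℝ) ^ 2 + ((k : ℝ) - k') * β =
        (γ * (((m + D : ℕ) : ℝ) - m) + c * (((m + D : ℕ) : ℝ) ^ 2 - (m : ℝ) ^ 2) / (h : ℝ) ^ 2 +
          k * β) -
        (γ * (((m' + D : ℕ) : ℝ) - m') + c * (((m' + D : ℕ) : ℝ) ^ 2 - (m' : ℝ) ^ 2) /
          (h : ℝ) ^ 2 + k' * β) := by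
      push_cast
      field_simp
      ring
    rw [e]
    calc _ ≤ _ + _ := abs_sub _ _
      _ < 2 * η := by linarith
  have hDh : (D : ℝ) < h := by
    have : D < h := by omega
    exact_mod_cast this
  have hmm : |(m : ℝ) - m'| < h := by
    have a1 : (m : ℝ) < h := by
      have : m < h := by omega
      exact_mod_cast this
    have a2 : (m' : ℝ) < h := by
      have : m' < h := by omega
      exact_mod_cast this
    have a3 : (0 : ℝ) ≤ m := Nat.cast_nonneg m
    have a4 : (0 : ℝ) ≤ m' := Nat.cast_nonneg m'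
    rw [abs_lt]; constructor <;> linarith
  have hsmall : |2 * c * D * ((m : ℝ) - m') / (h : ℝ) ^ 2| ≤ 2 * c := by
    rw [abs_div, abs_of_pos (show (0 : ℝ) < (h : ℝ) ^ 2 by positivity), div_le_iff₀ (by positivity),
      abs_mul, abs_of_pos (show (0 : ℝ) < 2 * c * D by positivity)]
    calc 2 * c * D * |(m : ℝ) - m'| ≤ 2 * c * h * h := by gcongr
      _ = 2 * c * (h : ℝ) ^ 2 := by ring
  have hkk : k = k' := by
    by_contra hne
    have h2 : (1 : ℝ) ≤ |(k : ℝ) - k'| := by
      have h3 : (1 : ℤ) ≤ |k - k'| := Int.one_le_abs (sub_ne_zero.mpr hne)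
      have h4 : ((1 : ℤ) : ℝ) ≤ ((|k - k'| : ℤ) : ℝ) := by exact_mod_cast h3
      push_cast at h4
      exact h4
    have h3 : β ≤ |((k : ℝ) - k') * β| := by
      rw [abs_mul, abs_of_pos hβ0]
      nlinarith
    have h4 : |((k : ℝ) - k') * β| < 2 * η + 2 * c := by
      have e : ((k : ℝ) - k') * β = (2 * c * D * ((m : ℝ) - m') / (h : ℝ) ^ 2 +
          ((k : ℝ) - k') * β) - 2 * c * D * ((m : ℝ) - m') / (h : ℝ) ^ 2 := by ring
      rw [e]
      calc _ ≤ _ + _ := abs_sub _ _
        _ < 2 * η + 2 * c := by linarith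
    linarith
  rw [hkk, sub_self, zero_mul, add_zero] at hdiff
  have h5 : 2 * c * D * ((m : ℝ) - m') / (h : ℝ) ^ 2 < 2 * η := lt_of_abs_lt hdiff
  rw [div_lt_iff₀ (by positivity)] at h5
  have h6 : η * (h : ℝ) ^ 2 / c * (D : ℝ)⁻¹ = (2 * η * (h : ℝ) ^ 2) / (2 * c * D) := by
    field_simp
  rw [h6, lt_div_iff₀ (by positivity)]
  linarith

/-- There are at most `2 h` close pairs. -/
theorem card_pairs_le {h : ℕ} (hh : 1 ≤ h) {γ β c η : ℝ} (hc : 0 < c) (hη : 0 < η)
    (hβ : 2 * c + 2 * η ≤ β) (hηc : η * h * (1 + Real.log h) ≤ c) (E : Finset (ℕ × ℕ))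
    (hE : ∀ q ∈ E, q.2 < q.1 ∧ q.1 < h ∧ Close h γ β c η q.1 q.2) :
    E.card ≤ 2 * h := by
  classical
  have hmaps : ∀ q ∈ E, q.1 - q.2 ∈ Finset.Icc 1 h := by
    intro q hq
    have := hE q hq
    rw [Finset.mem_Icc]; omega
  have h1 : E.card = ∑ D ∈ Finset.Icc 1 h, (E.filter fun q => q.1 - q.2 = D).card :=
    Finset.card_eq_sum_card_fiberwise hmaps
  have h2 : ∀ D ∈ Finset.Icc 1 h, ((E.filter fun q => q.1 - q.2 = D).card : ℝ) ≤
      η * (h : ℝ) ^ 2 / c * (D : ℝ)⁻¹ + 1 := by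
    intro D hD
    have hinj : Set.InjOn Prod.snd ((E.filter fun q => q.1 - q.2 = D : Finset (ℕ × ℕ)) :
        Set (ℕ × ℕ)) := by
      intro q hq q' hq' hqq
      rw [Finset.mem_coe, Finset.mem_filter] at hq hq'
      have a1 := hE q hq.1
      have a2 := hE q' hq'.1
      refine Prod.ext ?_ hqq
      have e1 := hq.2
      have e2 := hq'.2
      have e3 : q.2 = q'.2 := hqq
      omega
    rw [← Finset.card_image_of_injOn hinj]
    apply card_diff_le hh hc hη hβ (Finset.mem_Icc.mp hD).1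
    intro m hm
    rw [Finset.mem_image] at hm
    obtain ⟨q, hq, rfl⟩ := hm
    rw [Finset.mem_filter] at hq
    have a1 := hE q hq.1
    have e : q.2 + D = q.1 := by have := hq.2; omega
    rw [e]
    exact ⟨a1.2.1, a1.2.2⟩
  have hh0 : (0 : ℝ) < h := by exact_mod_cast hh
  have h3 : (E.card : ℝ) ≤ 2 * h := by
    rw [h1]
    push_cast
    calc ∑ D ∈ Finset.Icc 1 h, ((E.filter fun q => q.1 - q.2 = D).card : ℝ)
        ≤ ∑ D ∈ Finset.Icc 1 h, (η * (h : ℝ) ^ 2 / c * (D : ℝ)⁻¹ + 1) := sum_le_sum h2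
      _ = η * (h : ℝ) ^ 2 / c * ∑ D ∈ Finset.Icc 1 h, (D : ℝ)⁻¹ + h := by
          rw [sum_add_distrib, ← mul_sum]; simp
      _ ≤ η * (h : ℝ) ^ 2 / c * (1 + Real.log h) + h := by
          have h4 : ∑ D ∈ Finset.Icc 1 h, (D : ℝ)⁻¹ ≤ 1 + Real.log h := by
            have := harmonic_le_one_add_log h
            rw [harmonic_eq_sum_Icc] at this
            push_cast at this
            exact this
          have h5 : 0 ≤ η * (h : ℝ) ^ 2 / c := by positivity
          have := mul_le_mul_of_nonneg_left h4 h5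
          linarith
      _ ≤ h + h := by
          have h6 : η * (h : ℝ) ^ 2 / c * (1 + Real.log h) =
              h * (η * h * (1 + Real.log h)) / c := by ring
          rw [h6]
          have h7 : h * (η * h * (1 + Real.log h)) / c ≤ h := by
            rw [div_le_iff₀ hc]
            exact mul_le_mul_of_nonneg_left hηc hh0.le
          linarith
      _ = 2 * h := by ring
  exact_mod_cast h3

/-- A large set of indices contains a large subset without close pairs. -/
theorem exists_sep {h p : ℕ} (hp : 1 ≤ p) (R : ℕ → ℕ → Prop) (hsymm : ∀ l l', R l l' → R l' l)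
    (hE : ∀ E : Finset (ℕ × ℕ), (∀ q ∈ E, q.2 < q.1 ∧ q.1 < h ∧ R q.1 q.2) → E.card ≤ 2 * h)
    (U : Finset ℕ) (hU : U ⊆ range h) (hUc : h ≤ p * U.card) :
    ∃ V ⊆ U, (∀ v ∈ V, ∀ v' ∈ V, v ≠ v' → ¬ R v v') ∧ h ≤ 18 * p ^ 2 * V.card := by
  classical
  -- neighbours
  set N : ℕ → Finset ℕ := fun l => (range h).filter (fun l' => l' ≠ l ∧ R l l') with hN
  have hdeg : ∑ l ∈ range h, (N l).card ≤ 4 * h := by
    set E1 : Finset (ℕ × ℕ) := (range h ×ˢ range h).filter (fun q => q.2 < q.1 ∧ R q.1 q.2) with hE1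
    set E2 : Finset (ℕ × ℕ) := (range h ×ˢ range h).filter (fun q => q.1 < q.2 ∧ R q.1 q.2) with hE2
    have c1 : E1.card ≤ 2 * h := hE E1 (fun q hq => by
      rw [hE1, Finset.mem_filter, Finset.mem_product, mem_range, mem_range] at hq
      exact ⟨hq.2.1, hq.1.1, hq.2.2⟩)
    have c2 : E2.card ≤ 2 * h := by
      rw [← Finset.card_image_of_injective E2 Prod.swap_injective]
      apply hE
      intro q hq
      rw [Finset.mem_image] at hq
      obtain ⟨q', hq', rfl⟩ := hq
      rw [hE2, Finset.mem_filter, Finset.mem_product, mem_range, mem_range] at hq'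
      exact ⟨hq'.2.1, hq'.1.2, hsymm _ _ hq'.2.2⟩
    have c3 : ∑ l ∈ range h, (N l).card = ((range h).sigma N).card := (Finset.card_sigma _ _).symm
    rw [c3]
    have c4 : ((range h).sigma N).card ≤ (E1 ∪ E2).card := by
      apply Finset.card_le_card_of_injOn (fun s => (s.1, s.2))
      · intro s hs
        rw [Finset.mem_coe, Finset.mem_sigma, hN, Finset.mem_filter] at hs
        rw [Finset.mem_coe, Finset.mem_union, hE1, hE2, Finset.mem_filter, Finset.mem_filter,
          Finset.mem_product]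
        rcases lt_or_gt_of_ne hs.2.2.1 with hlt | hlt
        · exact Or.inl ⟨⟨hs.1, hs.2.1⟩, hlt, hs.2.2.2⟩
        · exact Or.inr ⟨⟨hs.1, hs.2.1⟩, hlt, hs.2.2.2⟩
      · rintro ⟨a, b⟩ _ ⟨a', b'⟩ _ heq
        simp only [Prod.mk.injEq] at heq
        obtain ⟨rfl, rfl⟩ := heq
        rfl
    have c5 := Finset.card_union_le E1 E2
    omega
  set bad : Finset ℕ := (range h).filter (fun l => 8 * p < (N l).card) with hbad
  have hbadc : 2 * p * bad.card ≤ h := by
    have c1 : ∑ l ∈ bad, 8 * p ≤ ∑ l ∈ range h, (N l).card := by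
      calc ∑ l ∈ bad, 8 * p ≤ ∑ l ∈ bad, (N l).card :=
            sum_le_sum fun l hl => (Finset.mem_filter.mp hl).2.le
        _ ≤ _ := sum_le_sum_of_subset (Finset.filter_subset _ _)
    rw [sum_const, smul_eq_mul] at c1
    nlinarith
  set good : Finset ℕ := U \ bad with hgood
  have hgoodc : h ≤ 2 * p * good.card := by
    have c1 : U.card ≤ good.card + bad.card := by
      have := Finset.card_le_card_sdiff_add_card (s := U) (t := bad)
      exact this
    nlinarith
  have hgoodN : ∀ l ∈ good, (N l).card ≤ 8 * p := by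
    intro l hl
    rw [hgood, Finset.mem_sdiff] at hl
    by_contra hcon
    push Not at hcon
    exact hl.2 (Finset.mem_filter.mpr ⟨hU hl.1, hcon⟩)
  -- a maximal independent subset of `good`
  obtain ⟨P, hP⟩ : ∃ P : Finset ℕ → Prop, ∀ V, P V ↔ ∀ v ∈ V, ∀ v' ∈ V, v ≠ v' → ¬ R v v' :=
    ⟨_, fun _ => Iff.rfl⟩
  obtain ⟨V, hV, hVmax⟩ := Finset.exists_max_image (good.powerset.filter P) Finset.card
    ⟨∅, by rw [Finset.mem_filter, hP]; simp⟩
  rw [Finset.mem_filter, Finset.mem_powerset, hP] at hV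
  refine ⟨V, hV.1.trans Finset.sdiff_subset, hV.2, ?_⟩
  have hcover : good ⊆ V.biUnion (fun v => insert v (N v)) := by
    intro l hl
    rw [Finset.mem_biUnion]
    by_contra hcon
    push Not at hcon
    have hlV : l ∉ V := fun h' => hcon l h' (Finset.mem_insert_self _ _)
    have hnR : ∀ v ∈ V, ¬ R v l := by
      intro v hv hR
      apply hcon v hv
      refine Finset.mem_insert_of_mem (Finset.mem_filter.mpr ⟨?_, ?_, hR⟩)
      · exact hU (Finset.mem_sdiff.mp hl).1
      · rintro rfl; exact hlV hv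
    have hnew : insert l V ∈ good.powerset.filter P := by
      rw [Finset.mem_filter, Finset.mem_powerset, hP]
      refine ⟨Finset.insert_subset hl hV.1, ?_⟩
      intro v hv v' hv' hne
      rcases Finset.mem_insert.mp hv with h1 | h1
      · rcases Finset.mem_insert.mp hv' with h2 | h2
        · exact absurd (h1.trans h2.symm) hne
        · rw [h1]
          exact fun hR => hnR v' h2 (hsymm _ _ hR)
      · rcases Finset.mem_insert.mp hv' with h2 | h2
        · rw [h2]
          exact hnR v h1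
        · exact hV.2 v h1 v' h2 hne
    have := hVmax _ hnew
    rw [Finset.card_insert_of_notMem hlV] at this
    omega
  have hc := (Finset.card_le_card hcover).trans Finset.card_biUnion_le
  have hc2 : ∑ v ∈ V, (insert v (N v)).card ≤ ∑ v ∈ V, (8 * p + 1) := by
    apply sum_le_sum
    intro v hv
    have := hgoodN v (hV.1 hv)
    have := Finset.card_insert_le v (N v)
    omega
  rw [sum_const, smul_eq_mul] at hc2
  have hc3 : good.card ≤ V.card * (8 * p + 1) := hc.trans hc2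
  calc h ≤ 2 * p * good.card := hgoodc
    _ ≤ 2 * p * (V.card * (8 * p + 1)) := Nat.mul_le_mul_left _ hc3
    _ ≤ 18 * p ^ 2 * V.card := by
        have : 8 * p + 1 ≤ 9 * p := by omega
        calc 2 * p * (V.card * (8 * p + 1)) ≤ 2 * p * (V.card * (9 * p)) :=
              Nat.mul_le_mul_left _ (Nat.mul_le_mul_left _ this)
          _ = 18 * p ^ 2 * V.card := by ring

end Pool.Agent.Lib.MP_71365f_an
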