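import Mathlib
import Pool.Agent.Lib.MP_71365f_an.Pairs
import Pool.Agent.Lib.MP_71365f_an.Coeff

/-!
A tree of permutations of a block, and the resulting permutations of the natural numbers.
-/

set_option autoImplicit false

open Finset

namespace Pool.Agent.Lib.MP_71365f_an

/-- The properties of a choice of the next element of a block of length `h`, given the set of the
elements which are already used. -/
def ChoiceSpec (h p : ℕ) (R : ℕ → ℕ → Prop) (ch : Finset ℕ → ℕ → ℕ) : Prop :=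
  ∀ A : Finset ℕ, A ⊆ range h → A.card < h → (∀ δ, ch A δ < h ∧ ch A δ ∉ A) ∧
    (h ≤ p * (h - A.card) → ∀ δ δ', δ < h / (18 * p ^ 2) → δ' < h / (18 * p ^ 2) → δ ≠ δ' →
      ¬ R (ch A δ) (ch A δ'))

theorem exists_choice {h p : ℕ} (hh : 1 ≤ h) (hp : 1 ≤ p) (R : ℕ → ℕ → Prop)
    (hsymm : ∀ l l', R l l' → R l' l)
    (hE : ∀ E : Finset (ℕ × ℕ), (∀ q ∈ E, q.2 < q.1 ∧ q.1 < h ∧ R q.1 q.2) → E.card ≤ 2 * h) :
    ∃ ch : Finset ℕ → ℕ → ℕ, ChoiceSpec h p R ch := by
  classical
  have key : ∀ A : Finset ℕ, ∃ e : ℕ → ℕ, A ⊆ range h → A.card < h →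
      (∀ δ, e δ < h ∧ e δ ∉ A) ∧
      (h ≤ p * (h - A.card) → ∀ δ δ', δ < h / (18 * p ^ 2) → δ' < h / (18 * p ^ 2) → δ ≠ δ' →
        ¬ R (e δ) (e δ')) := by
    intro A
    by_cases hA : A ⊆ range h ∧ A.card < h
    · obtain ⟨hA1, hA2⟩ := hA
      have hUc : (range h \ A).card = h - A.card := by
        rw [Finset.card_sdiff_of_subset hA1, card_range]
      by_cases hbig : h ≤ p * (h - A.card)
      · obtain ⟨V, hV1, hV2, hV3⟩ := exists_sep hp R hsymm hE (range h \ A) Finset.sdiff_subset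
          (by rw [hUc]; exact hbig)
        have hVpos : 0 < V.card := by
          rcases Nat.eq_zero_or_pos V.card with h0 | h0
          · rw [h0, mul_zero] at hV3; omega
          · exact h0
        have hVD : h / (18 * p ^ 2) ≤ V.card := by
          have : 0 < 18 * p ^ 2 := by positivity
          rw [Nat.div_le_iff_le_mul_add_pred this]
          omega
        obtain ⟨v₀, hv₀⟩ := Finset.card_pos.mp hVpos
        refine ⟨fun δ => if hδ : δ < V.card then V.orderEmbOfFin rfl ⟨δ, hδ⟩ else v₀,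
          fun _ _ => ⟨?_, ?_⟩⟩
        · intro δ
          have hmem : (if hδ : δ < V.card then V.orderEmbOfFin rfl ⟨δ, hδ⟩ else v₀) ∈ V := by
            split_ifs with hδ
            · exact V.orderEmbOfFin_mem rfl _
            · exact hv₀
          have := Finset.mem_sdiff.mp (hV1 hmem)
          exact ⟨mem_range.mp this.1, this.2⟩
        · intro _ δ δ' hδ hδ' hne
          have h1 : δ < V.card := lt_of_lt_of_le hδ hVD
          have h2 : δ' < V.card := lt_of_lt_of_le hδ' hVD
          simp only [dif_pos h1, dif_pos h2]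
          apply hV2 _ (V.orderEmbOfFin_mem rfl _) _ (V.orderEmbOfFin_mem rfl _)
          intro heq
          apply hne
          have := (V.orderEmbOfFin rfl).injective heq
          exact congrArg Fin.val this
      · obtain ⟨v₀, hv₀⟩ := Finset.card_pos.mp (show 0 < (range h \ A).card by rw [hUc]; omega)
        have := Finset.mem_sdiff.mp hv₀
        exact ⟨fun _ => v₀, fun _ _ => ⟨fun _ => ⟨mem_range.mp this.1, this.2⟩,
          fun hb => absurd hb hbig⟩⟩
    · exact ⟨fun _ => 0, fun h1 h2 => absurd ⟨h1, h2⟩ hA⟩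
  choose ch hch using key
  exact ⟨ch, hch⟩

/-- The set of used elements after `l` steps. -/
def used (ch : Finset ℕ → ℕ → ℕ) (d : ℕ → ℕ) : ℕ → Finset ℕ
  | 0 => ∅
  | (l + 1) => insert (ch (used ch d l) (d l)) (used ch d l)

/-- The element used at step `l`. -/
def pick (ch : Finset ℕ → ℕ → ℕ) (d : ℕ → ℕ) (l : ℕ) : ℕ := ch (used ch d l) (d l)

theorem used_congr {ch : Finset ℕ → ℕ → ℕ} {d d' : ℕ → ℕ} (l : ℕ) (h : ∀ j < l, d j = d' j) :
    used ch d l = used ch d' l := by
  induction l with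
  | zero => rfl
  | succ l ih =>
    simp only [used]
    rw [ih (fun j hj => h j (by omega)), h l (by omega)]

theorem pick_congr {ch : Finset ℕ → ℕ → ℕ} {d d' : ℕ → ℕ} (l : ℕ) (h : ∀ j < l + 1, d j = d' j) :
    pick ch d l = pick ch d' l := by
  unfold pick
  rw [used_congr l (fun j hj => h j (by omega)), h l (by omega)]

section

variable {h p : ℕ} {R : ℕ → ℕ → Prop} {ch : Finset ℕ → ℕ → ℕ}

theorem used_spec (hch : ChoiceSpec h p R ch) (d : ℕ → ℕ) {l : ℕ} (hl : l ≤ h) :
    used ch d l ⊆ range h ∧ (used ch d l).card = l := by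
  induction l with
  | zero => simp [used]
  | succ l ih =>
    obtain ⟨h1, h2⟩ := ih (by omega)
    have h3 := (hch _ h1 (by omega)).1 (d l)
    simp only [used]
    refine ⟨Finset.insert_subset (mem_range.mpr h3.1) h1, ?_⟩
    rw [Finset.card_insert_of_notMem h3.2, h2]

theorem pick_lt (hch : ChoiceSpec h p R ch) (d : ℕ → ℕ) {l : ℕ} (hl : l < h) :
    pick ch d l < h := by
  obtain ⟨h1, h2⟩ := used_spec hch d hl.le
  exact ((hch _ h1 (by omega)).1 (d l)).1

theorem pick_notMem (hch : ChoiceSpec h p R ch) (d : ℕ → ℕ) {l : ℕ} (hl : l < h) :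
    pick ch d l ∉ used ch d l := by
  obtain ⟨h1, h2⟩ := used_spec hch d hl.le
  exact ((hch _ h1 (by omega)).1 (d l)).2

theorem pick_mem_used (d : ℕ → ℕ) {j l : ℕ} (hjl : j < l) : pick ch d j ∈ used ch d l := by
  induction l with
  | zero => omega
  | succ l ih =>
    simp only [used]
    rcases Nat.lt_succ_iff_lt_or_eq.mp hjl with h1 | h1
    · exact Finset.mem_insert_of_mem (ih h1)
    · subst h1; exact Finset.mem_insert_self _ _

theorem pick_inj (hch : ChoiceSpec h p R ch) (d : ℕ → ℕ) {l l' : ℕ} (hl : l < h) (hl' : l' < h)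
    (heq : pick ch d l = pick ch d l') : l = l' := by
  rcases lt_trichotomy l l' with h1 | h1 | h1
  · exact absurd (heq ▸ pick_mem_used d h1) (pick_notMem hch d hl')
  · exact h1
  · exact absurd (heq ▸ pick_mem_used d h1) (pick_notMem hch d hl)

theorem pick_surj (hch : ChoiceSpec h p R ch) (d : ℕ → ℕ) {m : ℕ} (hm : m < h) :
    ∃ l < h, pick ch d l = m := by
  have h1 := used_spec hch d (le_refl h)
  have h2 : used ch d h = range h := Finset.eq_of_subset_of_card_le h1.1 (by rw [h1.2, card_range])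
  have key : ∀ n, ∀ x ∈ used ch d n, ∃ l < n, pick ch d l = x := by
    intro n
    induction n with
    | zero => intro x hx; simp [used] at hx
    | succ n ih =>
      intro x hx
      simp only [used] at hx
      rcases Finset.mem_insert.mp hx with h3 | h3
      · exact ⟨n, by omega, h3.symm⟩
      · obtain ⟨l, hl, rfl⟩ := ih x h3
        exact ⟨l, by omega, rfl⟩
  exact key h m (by rw [h2]; exact mem_range.mpr hm)

theorem pick_sep (hch : ChoiceSpec h p R ch) {d d' : ℕ → ℕ} {l : ℕ} (hl : l < h)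
    (hbig : h ≤ p * (h - l)) (hd : d l < h / (18 * p ^ 2)) (hd' : d' l < h / (18 * p ^ 2))
    (heq : ∀ j < l, d j = d' j) (hne : d l ≠ d' l) : ¬ R (pick ch d l) (pick ch d' l) := by
  obtain ⟨h1, h2⟩ := used_spec hch d hl.le
  unfold pick
  rw [← used_congr (ch := ch) l heq]
  apply (hch _ h1 (by omega)).2 _ _ _ hd hd' hne
  rw [h2]; exact hbig

end

/-! ### The permutations of the natural numbers -/

/-- The permutation of the natural numbers which permutes every block above `2 ^ p₀`. -/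
def sig (p₀ : ℕ) (ch : ℕ → Finset ℕ → ℕ → ℕ) (d : ℕ → ℕ) (i : ℕ) : ℕ :=
  if p₀ ≤ Nat.log 2 i then
    hh (Nat.log 2 i) * (i / hh (Nat.log 2 i)) + pick (ch (Nat.log 2 i))
      (fun l => d (hh (Nat.log 2 i) * (i / hh (Nat.log 2 i)) + l)) (i % hh (Nat.log 2 i))
  else i

variable {p₀ : ℕ} {R : ℕ → ℕ → ℕ → Prop} {ch : ℕ → Finset ℕ → ℕ → ℕ}

theorem sig_block (hp₀ : 1 ≤ p₀) (hch : ∀ p, p₀ ≤ p → ChoiceSpec (hh p) p (R p) (ch p))
    (d : ℕ → ℕ) {i : ℕ} (hi : p₀ ≤ Nat.log 2 i) :
    Nat.log 2 (sig p₀ ch d i) = Nat.log 2 i ∧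
    sig p₀ ch d i / hh (Nat.log 2 i) = i / hh (Nat.log 2 i) ∧
    sig p₀ ch d i % hh (Nat.log 2 i) = pick (ch (Nat.log 2 i))
      (fun l => d (hh (Nat.log 2 i) * (i / hh (Nat.log 2 i)) + l)) (i % hh (Nat.log 2 i)) := by
  have hi1 : 1 ≤ i := by
    rcases Nat.eq_zero_or_pos i with h | h
    · subst h; simp at hi; omega
    · exact h
  set p := Nat.log 2 i with hp
  have hlt : pick (ch p) (fun l => d (hh p * (i / hh p) + l)) (i % hh p) < hh p :=
    pick_lt (hch p hi) _ (Nat.mod_lt _ (hh_pos p))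
  have hs : sig p₀ ch d i = hh p * (i / hh p) +
      pick (ch p) (fun l => d (hh p * (i / hh p) + l)) (i % hh p) := by
    unfold sig
    rw [← hp, if_pos hi]
  rw [hs]
  exact ⟨block_log (block_lower hi1) (block_upper i) hlt, block_div hlt, block_mod hlt⟩

theorem sig_injective (hp₀ : 1 ≤ p₀) (hch : ∀ p, p₀ ≤ p → ChoiceSpec (hh p) p (R p) (ch p))
    (d : ℕ → ℕ) : Function.Injective (sig p₀ ch d) := by
  intro i i' heq
  by_cases hi : p₀ ≤ Nat.log 2 i
  · obtain ⟨a1, a2, a3⟩ := sig_block hp₀ hch d hi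
    by_cases hi' : p₀ ≤ Nat.log 2 i'
    · obtain ⟨b1, b2, b3⟩ := sig_block hp₀ hch d hi'
      have hlog : Nat.log 2 i = Nat.log 2 i' := by rw [← a1, ← b1, heq]
      rw [← hlog] at b2 b3
      have hdiv : i / hh (Nat.log 2 i) = i' / hh (Nat.log 2 i) := by rw [← a2, ← b2, heq]
      rw [← hdiv] at b3
      have hmod := pick_inj (hch _ hi) _ (Nat.mod_lt i (hh_pos (Nat.log 2 i)))
        (Nat.mod_lt i' (hh_pos (Nat.log 2 i))) (by rw [← a3, ← b3, heq])
      rw [← Nat.div_add_mod i (hh (Nat.log 2 i)), ← Nat.div_add_mod i' (hh (Nat.log 2 i)), hdiv,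
        hmod]
    · exfalso
      have h1 : sig p₀ ch d i' = i' := by unfold sig; rw [if_neg hi']
      rw [heq, h1] at a1
      omega
  · have h0 : sig p₀ ch d i = i := by unfold sig; rw [if_neg hi]
    by_cases hi' : p₀ ≤ Nat.log 2 i'
    · exfalso
      obtain ⟨b1, -, -⟩ := sig_block hp₀ hch d hi'
      rw [← heq, h0] at b1
      omega
    · have h1 : sig p₀ ch d i' = i' := by unfold sig; rw [if_neg hi']
      rw [← h0, heq, h1]

theorem sig_surjective (hp₀ : 1 ≤ p₀) (hch : ∀ p, p₀ ≤ p → ChoiceSpec (hh p) p (R p) (ch p))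
    (d : ℕ → ℕ) : Function.Surjective (sig p₀ ch d) := by
  intro j
  by_cases hj : p₀ ≤ Nat.log 2 j
  · have hj1 : 1 ≤ j := by
      rcases Nat.eq_zero_or_pos j with h | h
      · subst h; simp at hj; omega
      · exact h
    set p := Nat.log 2 j with hp
    set q := j / hh p with hq
    obtain ⟨l, hl, hpl⟩ := pick_surj (hch p hj) (fun l => d (hh p * q + l))
      (Nat.mod_lt j (hh_pos p))
    have e1 : Nat.log 2 (hh p * q + l) = p := block_log (block_lower hj1) (block_upper j) hl
    have e2 : (hh p * q + l) / hh p = q := block_div hl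
    have e3 : (hh p * q + l) % hh p = l := block_mod hl
    refine ⟨hh p * q + l, ?_⟩
    unfold sig
    rw [e1, if_pos hj, e2, e3, hpl, hq]
    exact Nat.div_add_mod j (hh p)
  · exact ⟨j, by unfold sig; rw [if_neg hj]⟩

theorem sig_congr {d d' : ℕ → ℕ} {i : ℕ} (h : ∀ j < i + 1, d j = d' j) :
    sig p₀ ch d i = sig p₀ ch d' i := by
  unfold sig
  split_ifs with hi
  · congr 1
    apply pick_congr
    intro j hj
    apply h
    have := Nat.div_add_mod i (hh (Nat.log 2 i))
    omega
  · rfl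

end Pool.Agent.Lib.MP_71365f_an
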