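import Mathlib
import Pool.Agent.Lib.MP_71365f_an.Perm
import Pool.Agent.Lib.MP_71365f_an.Defs

/-!
The tree of elements of the image, and the separation of its branches.
-/

set_option autoImplicit false

open Finset Filter Topology

namespace Pool.Agent.Lib.MP_71365f_an

/-- The position at step `i`. -/
noncomputable def pos (w α β : ℝ) (i : ℕ) : ℝ := w * Lam i + (α + β / 2) * i

/-- The precision of the phases. -/
noncomputable def eta (p : ℕ) : ℝ := 1 / (p * (p + 1) * hh p)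

/-- The exponent of the smaller point, for the index `j` at the step `i`. -/
noncomputable def kk (w α β : ℝ) (p₀ i j : ℕ) : ℕ :=
  if p₀ ≤ Nat.log 2 i then ⌈(pos w α β i - tau w j - α * j) / β⌉₊ else 0

/-- The term for the index `j` at the step `i`. -/
noncomputable def term (w α β : ℝ) (p₀ i j : ℕ) : ℝ :=
  coef w j * (Real.exp (-(α + β)) ^ (kk w α β p₀ i j) * Real.exp (-α) ^ (j - kk w α β p₀ i j))

theorem eta_pos {p : ℕ} (hp : 1 ≤ p) : 0 < eta p := by
  have h1 : (0 : ℝ) < p := by exact_mod_cast hp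
  have h2 : (0 : ℝ) < hh p := by exact_mod_cast hh_pos p
  unfold eta; positivity

theorem same_block {p i j : ℕ} (hp : 1 ≤ p) (hi : Nat.log 2 i = p) (hj : Nat.log 2 j = p)
    (hq : i / hh p = j / hh p) : i ≤ j + hh p ∧ Lam i ≤ Lam j + p * hh p ∧ 2 ^ p ≤ i := by
  have hi1 : 1 ≤ i := by
    rcases Nat.eq_zero_or_pos i with h | h
    · subst h; simp at hi; omega
    · exact h
  have hj1 : 1 ≤ j := by
    rcases Nat.eq_zero_or_pos j with h | h
    · subst h; simp at hj; omega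
    · exact h
  have b1 := block_lower hi1
  have b2 := block_upper i
  rw [hi] at b1 b2
  have ei := Nat.div_add_mod i (hh p)
  have ej := Nat.div_add_mod j (hh p)
  have li := Nat.mod_lt i (hh_pos p)
  have lj := Nat.mod_lt j (hh_pos p)
  rw [← hq] at ej
  refine ⟨by omega, ?_, ?_⟩
  · rw [← ei, ← ej, block_Lam b1 b2 li.le, block_Lam b1 b2 lj.le]
    have : p * (i % hh p) ≤ p * hh p := Nat.mul_le_mul_left _ li.le
    omega
  · rw [← hi]; exact Nat.pow_log_le_self 2 (by omega)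

section

variable {w α β : ℝ} {p₀ : ℕ}

theorem term_spec (hw : 0 < w) (hα : 0 ≤ α) (hβ : 0 < β) {p i j : ℕ} (hp : 1 ≤ p) (hp₀ : p₀ ≤ p)
    (hC1 : (w * p + α + β) * hh p + β + 1 ≤ β / 2 * 2 ^ p)
    (hi : Nat.log 2 i = p) (hj : Nat.log 2 j = p) (hq : i / hh p = j / hh p) :
    kk w α β p₀ i j ≤ j ∧ ∃ u : ℝ, u = tau w j + α * j + kk w α β p₀ i j * β ∧
      pos w α β i ≤ u ∧ u < pos w α β i + β ∧ term w α β p₀ i j = Real.exp (-u) := by
  obtain ⟨a1, a2, a3⟩ := same_block hp hi hj hq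
  obtain ⟨b1, b2, b3⟩ := same_block hp hj hi hq.symm
  have a1' : (i : ℝ) ≤ j + hh p := by exact_mod_cast a1
  have b1' : (j : ℝ) ≤ i + hh p := by exact_mod_cast b1
  have a2' : (Lam i : ℝ) ≤ Lam j + p * hh p := by exact_mod_cast a2
  have b2' : (Lam j : ℝ) ≤ Lam i + p * hh p := by exact_mod_cast b2
  have a3' : (2 : ℝ) ^ p ≤ i := by exact_mod_cast a3
  have b3' : (2 : ℝ) ^ p ≤ j := by exact_mod_cast b3
  have hh0 : (0 : ℝ) < hh p := by exact_mod_cast hh_pos p
  have ht0 := tt_nonneg j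
  have ht1 := tt_le_one j
  set X : ℝ := (pos w α β i - tau w j - α * j) / β with hX
  have hk : kk w α β p₀ i j = ⌈X⌉₊ := by
    unfold kk
    rw [hi, if_pos hp₀]
  have c1 := mul_le_mul_of_nonneg_left a2' hw.le
  have c2 := mul_le_mul_of_nonneg_left b2' hw.le
  have c3 := mul_le_mul_of_nonneg_left a1' hα
  have c4 := mul_le_mul_of_nonneg_left b1' hα
  have c5 := mul_le_mul_of_nonneg_left a1' (show 0 ≤ β / 2 by linarith)
  have c6 := mul_le_mul_of_nonneg_left a3' (show 0 ≤ β / 2 by linarith)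
  have c7 := mul_le_mul_of_nonneg_left b3' (show 0 ≤ β / 2 by linarith)
  have hαh : 0 ≤ α * hh p := by positivity
  have hβh : 0 ≤ β * hh p := by positivity
  have hwp : 0 ≤ w * p * hh p := by positivity
  have hXn : 0 ≤ pos w α β i - tau w j - α * j := by
    unfold pos tau
    nlinarith
  have hX0 : 0 ≤ X := div_nonneg hXn hβ.le
  have hXj : X ≤ j := by
    rw [hX, div_le_iff₀ hβ]
    unfold pos tau
    nlinarith
  have hkj : kk w α β p₀ i j ≤ j := by
    rw [hk]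
    exact Nat.ceil_le.mpr hXj
  refine ⟨hkj, _, rfl, ?_, ?_, ?_⟩
  · have h1 : X ≤ kk w α β p₀ i j := by rw [hk]; exact Nat.le_ceil X
    rw [hX, div_le_iff₀ hβ] at h1
    linarith
  · have h1 : (kk w α β p₀ i j : ℝ) < X + 1 := by rw [hk]; exact Nat.ceil_lt_add_one hX0
    have h2 : (kk w α β p₀ i j : ℝ) * β < (X + 1) * β := by
      exact mul_lt_mul_of_pos_right h1 hβ
    have h3 : X * β = pos w α β i - tau w j - α * j := by rw [hX]; field_simp
    nlinarith
  · unfold term coef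
    rw [← Real.exp_nat_mul, ← Real.exp_nat_mul, ← Real.exp_add, ← Real.exp_add]
    congr 1
    rw [Nat.cast_sub hkj]
    ring

theorem exp_sub_exp_ge {u u' M : ℝ} (hu : u ≤ M) (hu' : u' ≤ M) :
    Real.exp (-M) * |u - u'| ≤ |Real.exp (-u) - Real.exp (-u')| := by
  have key : ∀ u u' : ℝ, u ≤ u' → u' ≤ M →
      Real.exp (-M) * |u - u'| ≤ |Real.exp (-u) - Real.exp (-u')| := by
    intro u u' h1 h2
    have h3 : Real.exp (-u) - Real.exp (-u') = Real.exp (-u') * (Real.exp (u' - u) - 1) := by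
      rw [mul_sub, ← Real.exp_add]; ring_nf
    have h4 : u' - u ≤ Real.exp (u' - u) - 1 := by linarith [Real.add_one_le_exp (u' - u)]
    have h5 : Real.exp (-M) ≤ Real.exp (-u') := Real.exp_le_exp.mpr (by linarith)
    rw [h3, abs_of_nonpos (show u - u' ≤ 0 by linarith),
      abs_of_nonneg (mul_nonneg (Real.exp_pos _).le (by linarith))]
    have h6 : -(u - u') = u' - u := by ring
    rw [h6]
    exact mul_le_mul h5 h4 (by linarith) (Real.exp_pos _).le
  rcases le_total u u' with h | h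
  · exact key u u' h hu'
  · rw [abs_sub_comm u u', abs_sub_comm (Real.exp (-u))]
    exact key u' u h hu

theorem term_sep (hw : 0 < w) (hα : 0 ≤ α) (hβ : 0 < β) {p i j j' : ℕ} (hp : 1 ≤ p) (hp₀ : p₀ ≤ p)
    (hC1 : (w * p + α + β) * hh p + β + 1 ≤ β / 2 * 2 ^ p)
    (hi : Nat.log 2 i = p) (hj : Nat.log 2 j = p) (hj' : Nat.log 2 j' = p)
    (hq : i / hh p = j / hh p) (hq' : i / hh p = j' / hh p)
    (hsep : ¬ Close (hh p) (w * p + α) β (1 / p) (eta p) (j % hh p) (j' % hh p)) :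
    Real.exp (-(pos w α β i + β)) * eta p ≤ |term w α β p₀ i j - term w α β p₀ i j'| := by
  obtain ⟨-, u, hu, hu1, hu2, hu3⟩ := term_spec (p₀ := p₀) hw hα hβ hp hp₀ hC1 hi hj hq
  obtain ⟨-, u', hu', hu1', hu2', hu3'⟩ := term_spec (p₀ := p₀) hw hα hβ hp hp₀ hC1 hi hj' hq'
  rw [hu3, hu3']
  refine le_trans ?_ (exp_sub_exp_ge hu2.le hu2'.le)
  apply mul_le_mul_of_nonneg_left _ (Real.exp_pos _).le
  -- the phases
  have hj1 : 1 ≤ j := by
    rcases Nat.eq_zero_or_pos j with h | h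
    · subst h; simp at hj; omega
    · exact h
  have b1 := block_lower hj1
  have b2 := block_upper j
  rw [hj] at b1 b2
  have hqq : j / hh p = j' / hh p := hq.symm.trans hq'
  have lj := Nat.mod_lt j (hh_pos p)
  have lj' := Nat.mod_lt j' (hh_pos p)
  have t1 : tau w j = w * Lam (hh p * (j / hh p)) + w * p * ((j % hh p : ℕ) : ℝ) +
      ((j % hh p : ℕ) : ℝ) ^ 2 / (p * (hh p : ℝ) ^ 2) := by
    have := block_tau w b1 b2 lj
    rwa [Nat.div_add_mod] at this
  have t2 : tau w j' = w * Lam (hh p * (j / hh p)) + w * p * ((j' % hh p : ℕ) : ℝ) +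
      ((j' % hh p : ℕ) : ℝ) ^ 2 / (p * (hh p : ℝ) ^ 2) := by
    have := block_tau w b1 b2 lj'
    rwa [hqq, Nat.div_add_mod, ← hqq] at this
  have e1 : (j : ℝ) = hh p * ((j / hh p : ℕ) : ℝ) + ((j % hh p : ℕ) : ℝ) := by
    exact_mod_cast (Nat.div_add_mod j (hh p)).symm
  have e2 : (j' : ℝ) = hh p * ((j / hh p : ℕ) : ℝ) + ((j' % hh p : ℕ) : ℝ) := by
    rw [hqq]
    exact_mod_cast (Nat.div_add_mod j' (hh p)).symm
  by_contra hcon
  push Not at hcon
  apply hsep
  refine ⟨(kk w α β p₀ i j : ℤ) - kk w α β p₀ i j', ?_⟩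
  have hh0 : (0 : ℝ) < hh p := by exact_mod_cast hh_pos p
  have hp0 : (0 : ℝ) < p := by exact_mod_cast hp
  have e3 : (w * p + α) * (((j % hh p : ℕ) : ℝ) - ((j' % hh p : ℕ) : ℝ)) +
      1 / p * (((j % hh p : ℕ) : ℝ) ^ 2 - ((j' % hh p : ℕ) : ℝ) ^ 2) / (hh p : ℝ) ^ 2 +
      (((kk w α β p₀ i j : ℤ) - kk w α β p₀ i j' : ℤ) : ℝ) * β = u - u' := by
    rw [hu, hu', t1, t2]
    push_cast
    have f1 : α * (j : ℝ) - α * (j' : ℝ) =
        α * (((j % hh p : ℕ) : ℝ) - ((j' % hh p : ℕ) : ℝ)) := by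
      rw [e1, e2]; ring
    have f2 : 1 / (p : ℝ) * (((j % hh p : ℕ) : ℝ) ^ 2 - ((j' % hh p : ℕ) : ℝ) ^ 2) /
        (hh p : ℝ) ^ 2 = ((j % hh p : ℕ) : ℝ) ^ 2 / (p * (hh p : ℝ) ^ 2) -
        ((j' % hh p : ℕ) : ℝ) ^ 2 / (p * (hh p : ℝ) ^ 2) := by
      field_simp
    linear_combination f2 - f1
  rw [e3]
  exact hcon

end

end Pool.Agent.Lib.MP_71365f_an
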