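import Mathlib
import Pool.Agent.Lib.MP_71365f_an.Lower

/-!
The elements of the image which correspond to the digit sequences.
-/

set_option autoImplicit false

open Finset Filter Topology

namespace Pool.Agent.Lib.MP_71365f_an

/-- The conditions on the starting level and on the choice functions. -/
structure Cond (w α β : ℝ) (p₀ : ℕ) (ch : ℕ → Finset ℕ → ℕ → ℕ) : Prop where
  hw : 0 < w
  hα : 0 ≤ α
  hβ : 0 < β
  hp₀ : 1 ≤ p₀
  c1 : ∀ p : ℕ, p₀ ≤ p → (w * p + α + β) * hh p + β + 1 ≤ β / 2 * 2 ^ p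
  c2 : ∀ p : ℕ, p₀ ≤ p → 4 * Real.exp β * Real.exp (-(w * p)) ≤ eta p
  c3 : ∀ p : ℕ, p₀ ≤ p → Real.exp (-(w * p)) ≤ 1 / 2
  hch : ∀ p : ℕ, p₀ ≤ p →
    ChoiceSpec (hh p) p (Close (hh p) (w * p + α) β (1 / p) (eta p)) (ch p)

/-- The element of the image defined by a sequence of digits. -/
noncomputable def Phi (w α β : ℝ) (p₀ : ℕ) (ch : ℕ → Finset ℕ → ℕ → ℕ) (d : ℕ → ℕ) : ℝ :=
  ∑' i, term w α β p₀ i (sig p₀ ch d i)

variable {w α β : ℝ} {p₀ : ℕ} {ch : ℕ → Finset ℕ → ℕ → ℕ}

theorem kk_le (C : Cond w α β p₀ ch) (d : ℕ → ℕ) (i : ℕ) :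
    kk w α β p₀ i (sig p₀ ch d i) ≤ sig p₀ ch d i := by
  by_cases hi : p₀ ≤ Nat.log 2 i
  · obtain ⟨a1, a2, -⟩ := sig_block C.hp₀ C.hch d hi
    exact (term_spec C.hw C.hα C.hβ (C.hp₀.trans hi) hi (C.c1 _ hi) rfl a1 a2.symm).1
  · unfold kk; rw [if_neg hi]; exact Nat.zero_le _

theorem term_nonneg (w α β : ℝ) (p₀ i j : ℕ) : 0 ≤ term w α β p₀ i j := by
  unfold term
  have := coef_pos w j
  positivity

theorem term_le_coef (hα : 0 ≤ α) (hβ : 0 < β) (i j : ℕ) : term w α β p₀ i j ≤ coef w j := by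
  unfold term
  have h1 : Real.exp (-(α + β)) ^ (kk w α β p₀ i j) ≤ 1 :=
    pow_le_one₀ (Real.exp_pos _).le (Real.exp_le_one_iff.mpr (by linarith))
  have h2 : Real.exp (-α) ^ (j - kk w α β p₀ i j) ≤ 1 :=
    pow_le_one₀ (Real.exp_pos _).le (Real.exp_le_one_iff.mpr (by linarith))
  have h3 : Real.exp (-(α + β)) ^ (kk w α β p₀ i j) * Real.exp (-α) ^ (j - kk w α β p₀ i j) ≤ 1 :=
    mul_le_one₀ h1 (by positivity) h2
  calc _ ≤ coef w j * 1 := mul_le_mul_of_nonneg_left h3 (coef_pos w j).le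
    _ = _ := mul_one _

/-- The bijection. -/
noncomputable def sigE (C : Cond w α β p₀ ch) (d : ℕ → ℕ) : ℕ ≃ ℕ :=
  Equiv.ofBijective (sig p₀ ch d) ⟨sig_injective C.hp₀ C.hch d, sig_surjective C.hp₀ C.hch d⟩

theorem summable_term (C : Cond w α β p₀ ch) (d : ℕ → ℕ) :
    Summable fun i => term w α β p₀ i (sig p₀ ch d i) := by
  have h1 : Summable (coef w ∘ sigE C d) :=
    ((sigE C d).summable_iff (f := coef w)).mpr (summable_coef C.hw)
  refine Summable.of_nonneg_of_le (fun i => term_nonneg w α β p₀ i (sig p₀ ch d i)) (fun i => ?_) h1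
  exact term_le_coef C.hα C.hβ i (sig p₀ ch d i)

theorem Phi_mem (C : Cond w α β p₀ ch) (d : ℕ → ℕ) {K : Set ℝ} (hx : Real.exp (-(α + β)) ∈ K)
    (hy : Real.exp (-α) ∈ K) : Phi w α β p₀ ch d ∈ psImage (coef w) K := by
  set e := sigE C d with he
  have hek : ∀ j, kk w α β p₀ (e.symm j) j ≤ j := by
    intro j
    have := kk_le C d (e.symm j)
    have h2 : sig p₀ ch d (e.symm j) = j := e.apply_symm_apply j
    rwa [h2] at this
  refine ⟨fun j m => if m < kk w α β p₀ (e.symm j) j then Real.exp (-(α + β)) else Real.exp (-α),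
    ?_, ?_⟩
  · intro j m
    simp only
    split_ifs
    · exact hx
    · exact hy
  · have h1 : ∀ j, coef w j * ∏ m ∈ range j, (if m < kk w α β p₀ (e.symm j) j then
        Real.exp (-(α + β)) else Real.exp (-α)) = term w α β p₀ (e.symm j) j := by
      intro j
      unfold term
      congr 1
      have h2 : (range j).filter (fun m => m < kk w α β p₀ (e.symm j) j) =
          range (kk w α β p₀ (e.symm j) j) := by
        ext m
        have := hek j
        simp only [Finset.mem_filter, mem_range]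
        omega
      have h3 : ((range j).filter (fun m => ¬ m < kk w α β p₀ (e.symm j) j)).card =
          j - kk w α β p₀ (e.symm j) j := by
        rw [Finset.filter_not, h2, Finset.card_sdiff_of_subset, card_range, card_range]
        intro m hm
        have := hek j
        simp only [mem_range] at hm ⊢
        omega
      rw [Finset.prod_ite, Finset.prod_const, Finset.prod_const, h2, card_range, h3]
    simp only [h1]
    unfold Phi
    rw [← e.tsum_eq (fun j => term w α β p₀ (e.symm j) j)]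
    apply tsum_congr
    intro i
    rw [e.symm_apply_apply]
    rfl

/-- The terms after the step `m`. -/
theorem tail_term_le (C : Cond w α β p₀ ch) (d : ℕ → ℕ) {m : ℕ} (hm : p₀ ≤ Nat.log 2 m) :
    ∑' k, term w α β p₀ (k + (m + 1)) (sig p₀ ch d (k + (m + 1))) ≤
      2 * Real.exp (-(w * Nat.log 2 m)) * Real.exp (-pos w α β m) := by
  set p := Nat.log 2 m with hp
  set ρ : ℝ := Real.exp (-(w * p)) with hρ
  have hρ0 : 0 < ρ := Real.exp_pos _
  have hρ1 : ρ ≤ 1 / 2 := C.c3 p hm
  have hm1 : 1 ≤ m := by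
    rcases Nat.eq_zero_or_pos m with h | h
    · rw [h] at hp; simp at hp; have := C.hp₀; omega
    · exact h
  have hbound : ∀ k, term w α β p₀ (k + (m + 1)) (sig p₀ ch d (k + (m + 1))) ≤
      Real.exp (-pos w α β m) * ρ * ρ ^ k := by
    intro k
    have hlog : p ≤ Nat.log 2 (k + (m + 1)) := Nat.log_mono_right (by omega)
    have hi : p₀ ≤ Nat.log 2 (k + (m + 1)) := hm.trans hlog
    obtain ⟨a1, a2, -⟩ := sig_block C.hp₀ C.hch d hi
    obtain ⟨-, u, -, hu1, -, hu3⟩ :=
      term_spec (p₀ := p₀) C.hw C.hα C.hβ (C.hp₀.trans hi) hi (C.c1 _ hi) rfl a1 a2.symm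
    rw [hu3]
    have h1 : Real.exp (-pos w α β m) * ρ * ρ ^ k =
        Real.exp (-(pos w α β m + w * p * (k + 1))) := by
      rw [hρ, mul_assoc, ← pow_succ', ← Real.exp_nat_mul, ← Real.exp_add]
      congr 1
      push_cast
      ring
    rw [h1]
    apply Real.exp_le_exp.mpr
    have h2 : pos w α β m + w * p * (k + 1) ≤ pos w α β (k + (m + 1)) := by
      have h3 := Lam_add_mul m (k + 1) p (Nat.pow_log_le_self 2 (by omega))
      have h4 : m + (k + 1) = k + (m + 1) := by ring
      rw [h4] at h3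
      have h5 : (Lam m : ℝ) + p * (k + 1) ≤ Lam (k + (m + 1)) := by exact_mod_cast h3
      have h6 := mul_le_mul_of_nonneg_left h5 C.hw.le
      have h7 : (α + β / 2) * (m : ℝ) ≤ (α + β / 2) * ((k + (m + 1) : ℕ) : ℝ) := by
        apply mul_le_mul_of_nonneg_left
        · push_cast; have : (0 : ℝ) ≤ k := Nat.cast_nonneg k; linarith
        · have := C.hα; have := C.hβ; linarith
      unfold pos
      nlinarith
    linarith
  have hs : Summable fun k => term w α β p₀ (k + (m + 1)) (sig p₀ ch d (k + (m + 1))) :=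
    (summable_nat_add_iff (f := fun i => term w α β p₀ i (sig p₀ ch d i)) (m + 1)).mpr
      (summable_term C d)
  have hgeo := summable_geometric_of_lt_one hρ0.le (show ρ < 1 by linarith)
  calc _ ≤ ∑' k, Real.exp (-pos w α β m) * ρ * ρ ^ k :=
        Summable.tsum_le_tsum hbound hs (hgeo.mul_left _)
    _ = Real.exp (-pos w α β m) * ρ * (1 - ρ)⁻¹ := by
        rw [tsum_mul_left, tsum_geometric_of_lt_one hρ0.le (show ρ < 1 by linarith)]
    _ ≤ Real.exp (-pos w α β m) * ρ * 2 := by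
        apply mul_le_mul_of_nonneg_left _ (by positivity)
        rw [inv_le_comm₀ (by linarith) (by norm_num)]
        linarith
    _ = _ := by ring

/-- Separation of the elements at the first different digit. -/
theorem Phi_sep (C : Cond w α β p₀ ch) {d d' : ℕ → ℕ} {m : ℕ} (hm : p₀ ≤ Nat.log 2 m)
    (heq : ∀ j < m, d j = d' j) (hne : d m ≠ d' m)
    (hbig : hh (Nat.log 2 m) ≤ Nat.log 2 m * (hh (Nat.log 2 m) - m % hh (Nat.log 2 m)))
    (hd : d m < hh (Nat.log 2 m) / (18 * (Nat.log 2 m) ^ 2))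
    (hd' : d' m < hh (Nat.log 2 m) / (18 * (Nat.log 2 m) ^ 2)) :
    Real.exp (-(pos w α β m + β)) * eta (Nat.log 2 m) / 2 ≤
      |Phi w α β p₀ ch d - Phi w α β p₀ ch d'| := by
  set p := Nat.log 2 m with hp
  obtain ⟨a1, a2, a3⟩ := sig_block C.hp₀ C.hch d hm
  obtain ⟨b1, b2, b3⟩ := sig_block C.hp₀ C.hch d' hm
  rw [← hp] at a1 a2 a3 b1 b2 b3
  have hmm : hh p * (m / hh p) + m % hh p = m := Nat.div_add_mod m (hh p)
  have hR : ¬ Close (hh p) (w * p + α) β (1 / p) (eta p) (sig p₀ ch d m % hh p)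
      (sig p₀ ch d' m % hh p) := by
    rw [a3, b3]
    apply pick_sep (C.hch p hm) (Nat.mod_lt m (hh_pos p)) hbig
    · simp only [hmm]; exact hd
    · simp only [hmm]; exact hd'
    · intro j hj
      apply heq
      omega
    · simp only [hmm]; exact hne
  have hsep := term_sep (p₀ := p₀) C.hw C.hα C.hβ (C.hp₀.trans hm) hm (C.c1 _ hm) hp.symm a1 b1
    a2.symm b2.symm hR
  have h1 : ∀ i ∈ range m, term w α β p₀ i (sig p₀ ch d i) = term w α β p₀ i (sig p₀ ch d' i) := by
    intro i hi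
    have hi' := mem_range.mp hi
    rw [sig_congr (d := d) (d' := d') (fun j hj => heq j (by omega))]
  have e1 : Phi w α β p₀ ch d = ∑ i ∈ range m, term w α β p₀ i (sig p₀ ch d i) +
      term w α β p₀ m (sig p₀ ch d m) +
      ∑' k, term w α β p₀ (k + (m + 1)) (sig p₀ ch d (k + (m + 1))) := by
    unfold Phi
    rw [← (summable_term C d).sum_add_tsum_nat_add (m + 1), sum_range_succ]
  have e2 : Phi w α β p₀ ch d' = ∑ i ∈ range m, term w α β p₀ i (sig p₀ ch d i) +
      term w α β p₀ m (sig p₀ ch d' m) +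
      ∑' k, term w α β p₀ (k + (m + 1)) (sig p₀ ch d' (k + (m + 1))) := by
    unfold Phi
    rw [← (summable_term C d').sum_add_tsum_nat_add (m + 1), sum_range_succ, sum_congr rfl h1]
  have t1 := tail_term_le C d hm
  have t2 := tail_term_le C d' hm
  have n1 : 0 ≤ ∑' k, term w α β p₀ (k + (m + 1)) (sig p₀ ch d (k + (m + 1))) :=
    tsum_nonneg fun k => term_nonneg _ _ _ _ _ _
  have n2 : 0 ≤ ∑' k, term w α β p₀ (k + (m + 1)) (sig p₀ ch d' (k + (m + 1))) :=
    tsum_nonneg fun k => term_nonneg _ _ _ _ _ _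
  rw [← hp] at t1 t2
  set S := ∑' k, term w α β p₀ (k + (m + 1)) (sig p₀ ch d (k + (m + 1))) with hS
  set S' := ∑' k, term w α β p₀ (k + (m + 1)) (sig p₀ ch d' (k + (m + 1))) with hS'
  set v := term w α β p₀ m (sig p₀ ch d m) with hv
  set v' := term w α β p₀ m (sig p₀ ch d' m) with hv'
  have h2 : |v - v'| ≤ |Phi w α β p₀ ch d - Phi w α β p₀ ch d'| + |S - S'| := by
    have h3 : v - v' = (Phi w α β p₀ ch d - Phi w α β p₀ ch d') - (S - S') := by
      rw [e1, e2]; ring
    rw [h3]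
    exact abs_sub _ _
  have h3 : |S - S'| ≤ 2 * Real.exp (-(w * p)) * Real.exp (-pos w α β m) := by
    rw [abs_le]
    constructor <;> linarith
  have h4 : 2 * Real.exp (-(w * p)) * Real.exp (-pos w α β m) ≤
      Real.exp (-(pos w α β m + β)) * eta p / 2 := by
    have h5 := C.c2 p hm
    have h6 : Real.exp (-(pos w α β m + β)) = Real.exp (-pos w α β m) * Real.exp (-β) := by
      rw [← Real.exp_add]; ring_nf
    have h7 : Real.exp (-β) * Real.exp β = 1 := by rw [← Real.exp_add]; simp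
    rw [h6]
    have h8 : 0 < Real.exp (-pos w α β m) * Real.exp (-β) := by positivity
    have h9 := mul_le_mul_of_nonneg_left h5 h8.le
    have h10 : Real.exp (-pos w α β m) * Real.exp (-β) *
        (4 * Real.exp β * Real.exp (-(w * p))) =
        4 * Real.exp (-(w * p)) * Real.exp (-pos w α β m) * (Real.exp (-β) * Real.exp β) := by ring
    rw [h10, h7] at h9
    linarith
  linarith

end Pool.Agent.Lib.MP_71365f_an
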