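import Mathlib
import Pool.Agent.Lib.MP_71365f_an.Tree
import Pool.Agent.Lib.MP_71365f_an.Digits

/-!
The number of branches of the tree.
-/

set_option autoImplicit false

open Finset Filter Topology

namespace Pool.Agent.Lib.MP_71365f_an

/-- The number of admissible digits at step `i`. -/
def DD (p₀ : ℕ) (i : ℕ) : ℕ :=
  if p₀ ≤ Nat.log 2 i ∧
    i % hh (Nat.log 2 i) < hh (Nat.log 2 i) - hh (Nat.log 2 i) / Nat.log 2 i then
    hh (Nat.log 2 i) / (18 * (Nat.log 2 i) ^ 2)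
  else 1

theorem DD_pos {p₀ : ℕ} (c4 : ∀ p, p₀ ≤ p → 1 ≤ hh p / (18 * p ^ 2)) (i : ℕ) : 1 ≤ DD p₀ i := by
  unfold DD
  split_ifs with h
  · exact c4 _ h.1
  · exact le_rfl

/-- The sum of the logarithms over the beginning of a block. -/
theorem sum_block_ge {p₀ : ℕ} (hp₀ : 1 ≤ p₀) {ε : ℝ}
    (c4 : ∀ p, p₀ ≤ p → 1 ≤ hh p / (18 * p ^ 2))
    (c5 : ∀ p : ℕ, p₀ ≤ p → (1 - ε) * (p : ℝ) ^ 2 * Real.log 2 ≤
      ((p : ℝ) - 1) * Real.log ((hh p / (18 * p ^ 2) : ℕ) : ℝ))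
    {p q : ℕ} (hp : p₀ ≤ p) (h1 : 2 ^ p ≤ hh p * q) (h2 : hh p * (q + 1) ≤ 2 ^ (p + 1)) {l : ℕ}
    (hl : l ≤ hh p) :
    (1 - ε) * p * Real.log 2 * l ≤ ∑ j ∈ range l, Real.log (DD p₀ (hh p * q + j)) := by
  have hp0 : (0 : ℝ) < p := by exact_mod_cast (show 0 < p by omega)
  set Ld : ℝ := Real.log ((hh p / (18 * p ^ 2) : ℕ) : ℝ) with hLd
  have hLd0 : 0 ≤ Ld := Real.log_nonneg (by exact_mod_cast c4 p hp)
  have e1 : ∀ j ∈ range l, Real.log (DD p₀ (hh p * q + j)) =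
      if j < hh p - hh p / p then Ld else 0 := by
    intro j hj
    have hj' : j < hh p := lt_of_lt_of_le (mem_range.mp hj) hl
    unfold DD
    rw [block_log h1 h2 hj', block_mod hj']
    by_cases hc : j < hh p - hh p / p
    · rw [if_pos ⟨hp, hc⟩, if_pos hc]
    · rw [if_neg (fun h => hc h.2), if_neg hc]; simp
  rw [sum_congr rfl e1, ← sum_filter, sum_const, nsmul_eq_mul]
  have e2 : (range l).filter (fun j => j < hh p - hh p / p) = range (min l (hh p - hh p / p)) := by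
    ext j; simp
  rw [e2, card_range]
  have e3 : (p - 1) * l ≤ p * min l (hh p - hh p / p) := by
    rcases le_total l (hh p - hh p / p) with h | h
    · rw [min_eq_left h]; exact Nat.mul_le_mul_right _ (Nat.sub_le _ _)
    · rw [min_eq_right h, Nat.mul_sub]
      have h3 : p * (hh p / p) ≤ hh p := Nat.mul_div_le _ _
      have h4 : (p - 1) * l ≤ (p - 1) * hh p := Nat.mul_le_mul_left _ hl
      have h5 : (p - 1) * hh p = p * hh p - hh p := by rw [Nat.sub_mul, one_mul]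
      omega
  have e4 : ((p : ℝ) - 1) * l ≤ p * ((min l (hh p - hh p / p) : ℕ) : ℝ) := by
    have : (((p - 1 : ℕ) : ℝ)) * l ≤ p * ((min l (hh p - hh p / p) : ℕ) : ℝ) := by exact_mod_cast e3
    rwa [Nat.cast_sub (by omega), Nat.cast_one] at this
  have h5 := c5 p hp
  have h6 : (1 - ε) * (p : ℝ) ^ 2 * Real.log 2 * l ≤ p * (((min l (hh p - hh p / p) : ℕ) : ℝ) * Ld)
      := by
    calc (1 - ε) * (p : ℝ) ^ 2 * Real.log 2 * l ≤ (((p : ℝ) - 1) * Ld) * l := by gcongr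
      _ = (((p : ℝ) - 1) * l) * Ld := by ring
      _ ≤ (p * ((min l (hh p - hh p / p) : ℕ) : ℝ)) * Ld := by gcongr
      _ = _ := by ring
  have h7 : (1 - ε) * (p : ℝ) ^ 2 * Real.log 2 * l = p * ((1 - ε) * p * Real.log 2 * l) := by ring
  rw [h7] at h6
  exact le_of_mul_le_mul_left h6 hp0

theorem log_Qp_eq {D : ℕ → ℕ} (hD : ∀ m, 1 ≤ D m) (m : ℕ) :
    Real.log (Qp D m : ℝ) = ∑ j ∈ range m, Real.log (D j) := by
  unfold Qp
  push_cast
  rw [Real.log_prod]
  intro j _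
  have := hD j
  positivity

theorem log_Qp_ge {p₀ : ℕ} (hp₀ : 1 ≤ p₀) {ε : ℝ}
    (c4 : ∀ p, p₀ ≤ p → 1 ≤ hh p / (18 * p ^ 2))
    (c5 : ∀ p : ℕ, p₀ ≤ p → (1 - ε) * (p : ℝ) ^ 2 * Real.log 2 ≤
      ((p : ℝ) - 1) * Real.log ((hh p / (18 * p ^ 2) : ℕ) : ℝ)) (m : ℕ) (hm : 2 ^ p₀ ≤ m) :
    (1 - ε) * Real.log 2 * ((Lam m : ℝ) - Lam (2 ^ p₀)) ≤ Real.log (Qp (DD p₀) m : ℝ) := by
  rw [log_Qp_eq (DD_pos c4)]
  induction m using Nat.strong_induction_on with
  | _ m ih =>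
    rcases Nat.eq_or_lt_of_le hm with h | h
    · rw [← h, sub_self, mul_zero]
      apply sum_nonneg
      intro j _
      exact Real.log_nonneg (by exact_mod_cast DD_pos c4 j)
    · have hone := Nat.one_le_two_pow (n := p₀)
      obtain ⟨i, rfl⟩ := Nat.exists_eq_add_of_le' (show 1 ≤ m by omega)
      have hi1 : 1 ≤ i := by omega
      set p := Nat.log 2 i with hp
      have hpp : p₀ ≤ p := Nat.le_log_of_pow_le (by norm_num) (by omega)
      set q := i / hh p with hq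
      set l := i % hh p with hl
      have hl' : l < hh p := Nat.mod_lt _ (hh_pos p)
      have b1 : 2 ^ p ≤ hh p * q := block_lower hi1
      have b2 : hh p * (q + 1) ≤ 2 ^ (p + 1) := block_upper i
      have hil : i + 1 = hh p * q + (l + 1) := by
        have := Nat.div_add_mod i (hh p)
        rw [← hq, ← hl] at this
        omega
      have hn : 2 ^ p₀ ≤ hh p * q := (Nat.pow_le_pow_right (by norm_num) hpp).trans b1
      have hn' : hh p * q < i + 1 := by omega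
      have ih' := ih (hh p * q) hn' hn
      rw [hil, sum_range_add, block_Lam b1 b2 hl']
      have hb := sum_block_ge hp₀ c4 c5 hpp b1 b2 hl'
      push_cast at hb ⊢
      have e : (1 - ε) * Real.log 2 * (((Lam (hh p * q) : ℝ) + p * (l + 1)) - Lam (2 ^ p₀)) =
          (1 - ε) * Real.log 2 * ((Lam (hh p * q) : ℝ) - Lam (2 ^ p₀)) +
          (1 - ε) * p * Real.log 2 * (l + 1) := by ring
      rw [e]
      exact add_le_add ih' hb

end Pool.Agent.Lib.MP_71365f_an
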