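import Mathlib
import Pool.Agent.Lib.MP_71365f_an.Entropy

/-!
The conditions on the starting level hold for all large levels.
-/

set_option autoImplicit false

open Finset Filter Topology

namespace Pool.Agent.Lib.MP_71365f_an

theorem hh_le_real {p : ℕ} (hp : 1 ≤ p) : (hh p : ℝ) ≤ 2 * 2 ^ p / (p : ℝ) ^ 2 := by
  have hp0 : (0 : ℝ) < p := by exact_mod_cast hp
  rw [le_div_iff₀ (by positivity)]
  have h1 : hh p * p ^ 2 ≤ 2 * 2 ^ p := by
    have := hh_mul_sq_lt p
    have e : 2 ^ (p + 1) = 2 * 2 ^ p := by ring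
    rw [e] at this
    omega
  exact_mod_cast h1

theorem hh_ge_real {p : ℕ} (hp : 1 ≤ p) : 2 ^ p / (p : ℝ) ^ 2 ≤ hh p := by
  have hp0 : (0 : ℝ) < p := by exact_mod_cast hp
  rw [div_le_iff₀ (by positivity)]
  exact_mod_cast le_hh_mul_sq hp

theorem ev_c1 {w α β : ℝ} (hw : 0 < w) (hα : 0 ≤ α) (hβ : 0 < β) :
    ∀ᶠ p : ℕ in atTop, (w * p + α + β) * hh p + β + 1 ≤ β / 2 * 2 ^ p := by
  obtain ⟨N, hN⟩ := exists_nat_ge (2 * (2 * (w + α + β) + β + 1) / β)
  filter_upwards [eventually_ge_atTop (max N 1)] with p hp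
  have hp1 : 1 ≤ p := (le_max_right _ _).trans hp
  have hp0 : (1 : ℝ) ≤ p := by exact_mod_cast hp1
  have hNp : (N : ℝ) ≤ p := by exact_mod_cast (le_max_left N 1).trans hp
  have h1 : 2 * (2 * (w + α + β) + β + 1) ≤ β * p := by
    have := hN.trans hNp
    rw [div_le_iff₀ hβ] at this
    linarith
  have h2 : w * p + α + β ≤ (w + α + β) * p := by nlinarith
  have h3 : (p : ℝ) ≤ 2 ^ p := by exact_mod_cast (Nat.lt_two_pow_self).le
  have h4 : (w * p + α + β) * hh p ≤ ((w + α + β) * p) * (2 * 2 ^ p / (p : ℝ) ^ 2) :=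
    mul_le_mul h2 (hh_le_real hp1) (Nat.cast_nonneg _) (by positivity)
  have h5 : ((w + α + β) * p) * (2 * 2 ^ p / (p : ℝ) ^ 2) = 2 * (w + α + β) * (2 ^ p / p) := by
    field_simp
  have h6 : 1 ≤ (2 : ℝ) ^ p / p := by rw [one_le_div (by linarith)]; exact h3
  have h7 : (2 * (w + α + β) + β + 1) * (2 ^ p / p) ≤ β / 2 * 2 ^ p := by
    have h8 : (0 : ℝ) < 2 ^ p / p := by positivity
    calc (2 * (w + α + β) + β + 1) * (2 ^ p / p) ≤ (β * p / 2) * (2 ^ p / p) := by
          apply mul_le_mul_of_nonneg_right _ h8.le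
          linarith
      _ = β / 2 * 2 ^ p := by field_simp
  nlinarith

theorem eta_ge {p : ℕ} (hp : 1 ≤ p) : 1 / (2 * (p : ℝ) ^ 2 * 2 ^ p) ≤ eta p := by
  have hp0 : (1 : ℝ) ≤ p := by exact_mod_cast hp
  have h1 : (hh p : ℝ) ≤ 2 ^ p := by exact_mod_cast hh_le p
  have h2 : (0 : ℝ) < hh p := by exact_mod_cast hh_pos p
  unfold eta
  apply one_div_le_one_div_of_le (by positivity)
  calc (p : ℝ) * (p + 1) * hh p ≤ (p * (2 * p)) * 2 ^ p := by
        apply mul_le_mul _ h1 h2.le (by positivity)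
        apply mul_le_mul_of_nonneg_left _ (by linarith)
        linarith
    _ = _ := by ring

theorem ev_c2 {w β : ℝ} (hw : Real.log 2 < w) :
    ∀ᶠ p : ℕ in atTop, 4 * Real.exp β * Real.exp (-(w * p)) ≤ eta p := by
  set g : ℝ := w - Real.log 2 with hg
  have hg0 : 0 < g := by linarith
  have h1 : Tendsto (fun p : ℕ => (g * p) ^ 2 * Real.exp (-(g * p))) atTop (𝓝 0) := by
    apply (Real.tendsto_pow_mul_exp_neg_atTop_nhds_zero 2).comp
    exact Tendsto.const_mul_atTop hg0 tendsto_natCast_atTop_atTop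
  have h2 : 0 < g ^ 2 / (8 * Real.exp β) := by positivity
  filter_upwards [h1.eventually (gt_mem_nhds h2), eventually_ge_atTop 1] with p hp hp1
  refine le_trans ?_ (eta_ge hp1)
  have hp0 : (1 : ℝ) ≤ p := by exact_mod_cast hp1
  rw [le_div_iff₀ (by positivity)]
  have e1 : Real.exp (-(w * p)) * 2 ^ p = Real.exp (-(g * p)) := by
    rw [show (2 : ℝ) ^ p = Real.exp (p * Real.log 2) by
      rw [Real.exp_nat_mul, Real.exp_log (by norm_num)], ← Real.exp_add]
    congr 1
    rw [hg]; ring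
  have e2 : 4 * Real.exp β * Real.exp (-(w * p)) * (2 * (p : ℝ) ^ 2 * 2 ^ p) =
      8 * Real.exp β * (p : ℝ) ^ 2 * (Real.exp (-(w * p)) * 2 ^ p) := by ring
  rw [e2, e1]
  rw [lt_div_iff₀ (by positivity)] at hp
  have e3 : g ^ 2 * (8 * Real.exp β * (p : ℝ) ^ 2 * Real.exp (-(g * p))) ≤ g ^ 2 * 1 := by
    calc _ = (g * p) ^ 2 * Real.exp (-(g * p)) * (8 * Real.exp β) := by ring
      _ ≤ g ^ 2 * 1 := by rw [mul_one]; exact hp.le
  exact le_of_mul_le_mul_left e3 (by positivity)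

theorem ev_c3 {w : ℝ} (hw : 0 < w) : ∀ᶠ p : ℕ in atTop, Real.exp (-(w * p)) ≤ 1 / 2 := by
  have h1 : Tendsto (fun p : ℕ => Real.exp (-(w * p))) atTop (𝓝 0) := by
    apply Real.tendsto_exp_neg_atTop_nhds_zero.comp
    exact Tendsto.const_mul_atTop hw tendsto_natCast_atTop_atTop
  filter_upwards [h1.eventually (gt_mem_nhds (show (0 : ℝ) < 1 / 2 by norm_num))] with p hp
  exact hp.le

theorem ev_big (C : ℝ) (hC : 0 < C) : ∀ᶠ p : ℕ in atTop, C * (p : ℝ) ^ 4 ≤ 2 ^ p := by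
  have h1 := tendsto_pow_const_div_const_pow_of_one_lt 4 (show (1 : ℝ) < 2 by norm_num)
  have h2 : (0 : ℝ) < 1 / C := by positivity
  filter_upwards [h1.eventually (gt_mem_nhds h2)] with p hp
  rw [div_lt_div_iff₀ (by positivity) hC] at hp
  linarith

theorem ev_c4 : ∀ᶠ p : ℕ in atTop, (2 : ℝ) ^ p / (36 * (p : ℝ) ^ 4) ≤
    ((hh p / (18 * p ^ 2) : ℕ) : ℝ) ∧ 1 ≤ hh p / (18 * p ^ 2) := by
  filter_upwards [ev_big 36 (by norm_num), eventually_ge_atTop 1] with p hp hp1
  have hp0 : (1 : ℝ) ≤ p := by exact_mod_cast hp1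
  have h1 := hh_ge_real hp1
  have h2 : 2 * (18 * (p : ℝ) ^ 2) ≤ hh p := by
    refine le_trans ?_ h1
    rw [le_div_iff₀ (by positivity)]
    calc _ = 36 * (p : ℝ) ^ 4 := by ring
      _ ≤ _ := hp
  have h3 : (hh p : ℝ) < (((hh p / (18 * p ^ 2) : ℕ) : ℝ) + 1) * (18 * (p : ℝ) ^ 2) := by
    have := Nat.lt_div_mul_add (a := hh p) (b := 18 * p ^ 2) (by positivity)
    have h4 : hh p < (hh p / (18 * p ^ 2) + 1) * (18 * p ^ 2) := by
      rw [add_mul, one_mul]; exact this
    exact_mod_cast h4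
  have h4 : (0 : ℝ) < 18 * (p : ℝ) ^ 2 := by positivity
  have h5 : (1 : ℝ) < ((hh p / (18 * p ^ 2) : ℕ) : ℝ) + 0 := by
    by_contra hcon
    push Not at hcon
    nlinarith
  refine ⟨?_, ?_⟩
  · rw [div_le_iff₀ (by positivity)]
    rw [div_le_iff₀ (by positivity)] at h1
    nlinarith
  · have : (1 : ℝ) ≤ ((hh p / (18 * p ^ 2) : ℕ) : ℝ) := by linarith
    exact_mod_cast this

theorem ev_c5 {ε : ℝ} (hε : 0 < ε) : ∀ᶠ p : ℕ in atTop, (1 - ε) * (p : ℝ) ^ 2 * Real.log 2 ≤
    ((p : ℝ) - 1) * Real.log ((hh p / (18 * p ^ 2) : ℕ) : ℝ) := by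
  have hl2 : 0 < Real.log 2 := Real.log_pos (by norm_num)
  have h1 : Tendsto (fun p : ℕ => Real.log p / p) atTop (𝓝 0) := by
    have := Real.isLittleO_log_id_atTop.tendsto_div_nhds_zero
    exact this.comp tendsto_natCast_atTop_atTop
  have h2 : Tendsto (fun p : ℕ => (Real.log 2 + Real.log 36) / (p : ℝ) + 4 * (Real.log p / p)) atTop
      (𝓝 (0 + 4 * 0)) := by
    apply Tendsto.add
    · exact tendsto_const_div_atTop_nhds_zero_nat _
    · exact h1.const_mul 4
  rw [mul_zero, add_zero] at h2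
  have h3 : 0 < ε * Real.log 2 := by positivity
  filter_upwards [h2.eventually (gt_mem_nhds h3), ev_c4, eventually_ge_atTop 1] with p hp hp4 hp1
  have hp0 : (1 : ℝ) ≤ p := by exact_mod_cast hp1
  have hpp : (0 : ℝ) < p := by linarith
  have h4 : (p : ℝ) * Real.log 2 - Real.log 36 - 4 * Real.log p ≤
      Real.log ((hh p / (18 * p ^ 2) : ℕ) : ℝ) := by
    have e : (p : ℝ) * Real.log 2 - Real.log 36 - 4 * Real.log p =
        Real.log ((2 : ℝ) ^ p / (36 * (p : ℝ) ^ 4)) := by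
      rw [Real.log_div (by positivity) (by positivity), Real.log_mul (by norm_num) (by positivity),
        Real.log_pow, Real.log_pow]
      push_cast; ring
    rw [e]
    exact Real.log_le_log (by positivity) hp4.1
  have h5 := mul_le_mul_of_nonneg_left h4 (show (0 : ℝ) ≤ p - 1 by linarith)
  refine le_trans ?_ h5
  have h6 : (Real.log 2 + Real.log 36) + 4 * Real.log p < ε * Real.log 2 * p := by
    have := mul_lt_mul_of_pos_right hp hpp
    have e : ((Real.log 2 + Real.log 36) / (p : ℝ) + 4 * (Real.log p / p)) * p =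
        (Real.log 2 + Real.log 36) + 4 * Real.log p := by field_simp
    rw [e] at this
    exact this
  have h7 : 0 ≤ Real.log 36 + 4 * Real.log p := by
    have := Real.log_nonneg hp0
    have := Real.log_nonneg (show (1 : ℝ) ≤ 36 by norm_num)
    linarith
  nlinarith

theorem choice_spec {w α β : ℝ} {p : ℕ} (hp : 1 ≤ p) (hβ : 0 < β) (hpβ : 4 / β ≤ p) :
    ∃ ch : Finset ℕ → ℕ → ℕ,
      ChoiceSpec (hh p) p (Close (hh p) (w * p + α) β (1 / p) (eta p)) ch := by
  have hp0 : (1 : ℝ) ≤ p := by exact_mod_cast hp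
  have hh1 : (1 : ℝ) ≤ hh p := by exact_mod_cast hh_pos p
  apply exists_choice (hh_pos p) hp _ (fun l l' H => H.symm)
  intro E hE
  apply card_pairs_le (hh_pos p) (γ := w * p + α) (β := β) (c := 1 / p) (η := eta p) (by positivity)
    (eta_pos hp) _ _ E hE
  · have h1 : eta p ≤ 1 / p := by
      unfold eta
      apply one_div_le_one_div_of_le (by positivity)
      calc (p : ℝ) = p * 1 * 1 := by ring
        _ ≤ p * (p + 1) * hh p := by gcongr; linarith
    have h2 : 4 / (p : ℝ) ≤ β := by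
      rw [div_le_iff₀ hβ] at hpβ
      rw [div_le_iff₀ (by positivity)]
      linarith
    have h3 : 4 / (p : ℝ) = 4 * (1 / p) := by ring
    linarith
  · have h1 : Real.log (hh p) ≤ p := by
      have h2 : Real.log (hh p) ≤ Real.log ((2 : ℝ) ^ p) :=
        Real.log_le_log (by linarith) (by exact_mod_cast hh_le p)
      rw [Real.log_pow] at h2
      have h3 : Real.log 2 ≤ 1 := by
        have := Real.log_two_lt_d9; linarith
      nlinarith
    have h2 : eta p * hh p * (1 + Real.log (hh p)) = (1 + Real.log (hh p)) / (p * (p + 1)) := by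
      unfold eta
      field_simp
    rw [h2, div_le_div_iff₀ (by positivity) (by positivity)]
    nlinarith

end Pool.Agent.Lib.MP_71365f_an
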