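import Mathlib
import Pool.Agent.Lib.MP_71365f_an.Asymp

/-!
The lower bound for the Hausdorff dimension of the image.
-/

set_option autoImplicit false

open Finset Filter Topology
open scoped NNReal ENNReal

namespace Pool.Agent.Lib.MP_71365f_an

/-- The separation at step `m`. -/
noncomputable def del (w α β : ℝ) (p₀ m : ℕ) : ℝ :=
  if p₀ ≤ Nat.log 2 m then Real.exp (-(pos w α β m + β)) * eta (Nat.log 2 m) / 2 else 1

theorem del_pos {w α β : ℝ} {p₀ : ℕ} (hp₀ : 1 ≤ p₀) (m : ℕ) : 0 < del w α β p₀ m := by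
  unfold del
  split_ifs with h
  · have := eta_pos (p := Nat.log 2 m) (by omega)
    positivity
  · norm_num

/-- A lower bound for the separation. -/
theorem del_ge {w α β : ℝ} (hβ : 0 < β) {p₀ m : ℕ} (hp₀ : 1 ≤ p₀)
    (hm : p₀ ≤ Nat.log 2 m) :
    Real.exp (-(w * Lam m + (α + β + 4) * m + β + 2)) ≤ del w α β p₀ m := by
  set p := Nat.log 2 m with hp
  have hm1 : 1 ≤ m := by
    rcases Nat.eq_zero_or_pos m with h | h
    · rw [h] at hp; simp at hp; omega
    · exact h
  have hp1 : 1 ≤ p := by omega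
  have hm0 : (1 : ℝ) ≤ m := by exact_mod_cast hm1
  have hpm : p ≤ m := Nat.log_le_self 2 m
  have hpm' : (p : ℝ) ≤ m := by exact_mod_cast hpm
  have h2m : (2 : ℝ) ^ p ≤ m := by exact_mod_cast Nat.pow_log_le_self 2 (show m ≠ 0 by omega)
  have hp0 : (1 : ℝ) ≤ p := by exact_mod_cast hp1
  unfold del
  rw [← hp, if_pos hm]
  have h1 : Real.exp (-(4 * m + 2)) ≤ eta p / 2 := by
    have h2 := eta_ge hp1
    have h3 : 1 / (2 * (m : ℝ) ^ 2 * m) ≤ 1 / (2 * (p : ℝ) ^ 2 * 2 ^ p) := by
      apply one_div_le_one_div_of_le (by positivity)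
      gcongr
    have h4 : 2 * (2 * (m : ℝ) ^ 2 * m) ≤ Real.exp (4 * m + 2) := by
      have e1 : (m : ℝ) ≤ Real.exp m := by linarith [Real.add_one_le_exp (m : ℝ)]
      have e2 : (4 : ℝ) ≤ Real.exp 2 := by
        have := Real.add_one_le_exp (1 : ℝ)
        have h : Real.exp 2 = Real.exp 1 * Real.exp 1 := by rw [← Real.exp_add]; norm_num
        rw [h]; nlinarith
      have e3 : Real.exp (4 * m + 2) = Real.exp m * Real.exp m * Real.exp m * Real.exp m *
          Real.exp 2 := by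
        rw [← Real.exp_add, ← Real.exp_add, ← Real.exp_add, ← Real.exp_add]; ring_nf
      rw [e3]
      calc 2 * (2 * (m : ℝ) ^ 2 * m) = m * m * m * 1 * 4 := by ring
        _ ≤ Real.exp m * Real.exp m * Real.exp m * Real.exp m * Real.exp 2 := by
            have e4 : (1 : ℝ) ≤ Real.exp m := hm0.trans e1
            gcongr
    have h5 : Real.exp (-(4 * m + 2)) ≤ 1 / (2 * (2 * (m : ℝ) ^ 2 * m)) := by
      rw [Real.exp_neg, ← one_div]
      exact one_div_le_one_div_of_le (by positivity) h4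
    have h6 : 1 / (2 * (2 * (m : ℝ) ^ 2 * m)) = 1 / (2 * (m : ℝ) ^ 2 * m) / 2 := by
      field_simp
    rw [h6] at h5
    linarith
  have h2 : Real.exp (-(w * Lam m + (α + β + 4) * m + β + 2)) ≤
      Real.exp (-(pos w α β m + β)) * Real.exp (-(4 * m + 2)) := by
    rw [← Real.exp_add]
    apply Real.exp_le_exp.mpr
    unfold pos
    have : 0 ≤ β / 2 * m := by positivity
    nlinarith
  refine h2.trans ?_
  rw [mul_div_assoc]
  exact mul_le_mul_of_nonneg_left h1 (Real.exp_pos _).le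

theorem le_dimH_psImage {w : ℝ} (hw : Real.log 2 < w) (r : ℝ≥0) (hr : 0 < r)
    (hrw : (r : ℝ) * w < Real.log 2) {K : Set ℝ} {x y : ℝ} (hx : x ∈ K) (hy : y ∈ K)
    (hx0 : 0 < x) (hxy : x < y) (hy1 : y ≤ 1) : (r : ℝ≥0∞) ≤ dimH (psImage (coef w) K) := by
  classical
  have hl2 : 0 < Real.log 2 := Real.log_pos (by norm_num)
  have hw0 : 0 < w := hl2.trans hw
  have hy0 : 0 < y := hx0.trans hxy
  set α : ℝ := -Real.log y with hα
  set β : ℝ := Real.log y - Real.log x with hβ
  have hα0 : 0 ≤ α := by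
    have := Real.log_nonpos hy0.le hy1
    rw [hα]; linarith
  have hβ0 : 0 < β := by
    have := Real.log_lt_log hx0 hxy
    rw [hβ]; linarith
  have hxe : Real.exp (-(α + β)) = x := by
    rw [hα, hβ, show -(-Real.log y + (Real.log y - Real.log x)) = Real.log x by ring,
      Real.exp_log hx0]
  have hye : Real.exp (-α) = y := by rw [hα, neg_neg, Real.exp_log hy0]
  set ε : ℝ := (Real.log 2 - r * w) / (2 * Real.log 2) with hε
  have hε0 : 0 < ε := by
    rw [hε]; apply div_pos <;> linarith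
  set g : ℝ := (1 - ε) * Real.log 2 - r * w with hg
  have hg0 : 0 < g := by
    have : ε * Real.log 2 = (Real.log 2 - r * w) / 2 := by rw [hε]; field_simp
    rw [hg]; linarith
  obtain ⟨M, hM⟩ := exists_nat_ge (4 / β)
  obtain ⟨p₁, hp₁⟩ := eventually_atTop.mp ((ev_c1 hw0 hα0 hβ0).and ((ev_c2 (β := β) hw).and
    ((ev_c3 hw0).and (ev_c4.and (ev_c5 hε0)))))
  set p₀ : ℕ := max (max p₁ M) 1 with hp₀
  have hp₀1 : 1 ≤ p₀ := le_max_right _ _
  have hp₀p : ∀ p, p₀ ≤ p → p₁ ≤ p := fun p h =>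
    ((le_max_left p₁ M).trans (le_max_left _ _)).trans h
  have hp₀M : ∀ p : ℕ, p₀ ≤ p → 4 / β ≤ p := fun p h => by
    have : M ≤ p := ((le_max_right p₁ M).trans (le_max_left _ _)).trans h
    exact hM.trans (by exact_mod_cast this)
  have hchoice : ∀ p : ℕ, ∃ ch : Finset ℕ → ℕ → ℕ, p₀ ≤ p →
      ChoiceSpec (hh p) p (Close (hh p) (w * p + α) β (1 / p) (eta p)) ch := by
    intro p
    by_cases hp : p₀ ≤ p
    · obtain ⟨ch, hch⟩ := choice_spec (w := w) (α := α) (hp₀1.trans hp) hβ0 (hp₀M p hp)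
      exact ⟨ch, fun _ => hch⟩
    · exact ⟨fun _ _ => 0, fun h => absurd h hp⟩
  choose ch hch using hchoice
  have C : Cond w α β p₀ ch :=
    { hw := hw0
      hα := hα0
      hβ := hβ0
      hp₀ := hp₀1
      c1 := fun p hp => (hp₁ p (hp₀p p hp)).1
      c2 := fun p hp => (hp₁ p (hp₀p p hp)).2.1
      c3 := fun p hp => (hp₁ p (hp₀p p hp)).2.2.1
      hch := hch }
  have c4 : ∀ p, p₀ ≤ p → 1 ≤ hh p / (18 * p ^ 2) := fun p hp => (hp₁ p (hp₀p p hp)).2.2.2.1.2
  have c5 := fun (p : ℕ) (hp : p₀ ≤ p) => (hp₁ p (hp₀p p hp)).2.2.2.2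
  have hDpos := DD_pos c4
  have hQge := log_Qp_ge hp₀1 c4 c5
  -- the growth of the products
  have hQ : Tendsto (fun m => (Qp (DD p₀) m : ℝ)) atTop atTop := by
    have h1 : Tendsto (fun m : ℕ => (1 - ε) * Real.log 2 * ((Lam m : ℝ) - Lam (2 ^ p₀))) atTop
        atTop := by
      apply Tendsto.const_mul_atTop
      · have : 0 ≤ (r : ℝ) * w := by positivity
        linarith
      · apply tendsto_atTop_add_const_right
        apply tendsto_natCast_atTop_atTop.comp
        apply tendsto_atTop_mono (f := fun i => i - 2) (fun i => by have := le_Lam i; omega)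
        exact tendsto_sub_atTop_nat 2
    have h2 : Tendsto (fun m : ℕ => Real.log (Qp (DD p₀) m : ℝ)) atTop atTop := by
      apply tendsto_atTop_mono' _ _ h1
      filter_upwards [eventually_ge_atTop (2 ^ p₀)] with m hm
      exact hQge m hm
    have h3 := Real.tendsto_exp_atTop.comp h2
    refine h3.congr (fun m => ?_)
    rw [Function.comp_apply, Real.exp_log]
    exact_mod_cast Qp_pos hDpos m
  -- the separation condition
  have hsep : ∀ d d' : ℕ → ℕ, (∀ m, d m < DD p₀ m) → (∀ m, d' m < DD p₀ m) →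
      ∀ m, (∀ j < m, d j = d' j) → d m ≠ d' m →
        del w α β p₀ m ≤ |Phi w α β p₀ ch d - Phi w α β p₀ ch d'| := by
    intro d d' hd hd' m heq hne
    have h1 := hd m
    have h2 := hd' m
    by_cases hc : p₀ ≤ Nat.log 2 m ∧
      m % hh (Nat.log 2 m) < hh (Nat.log 2 m) - hh (Nat.log 2 m) / Nat.log 2 m
    · unfold DD at h1 h2
      rw [if_pos hc] at h1 h2
      unfold del
      rw [if_pos hc.1]
      apply Phi_sep C hc.1 heq hne _ h1 h2
      set p := Nat.log 2 m with hp
      have hp1 : 0 < p := by omega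
      have h3 : hh p / p + 1 ≤ hh p - m % hh p := by omega
      have h4 : hh p < p * (hh p / p + 1) := by
        have := Nat.lt_mul_div_succ (hh p) hp1
        exact this
      exact h4.le.trans (Nat.mul_le_mul_left _ h3)
    · exfalso
      unfold DD at h1 h2
      rw [if_neg hc] at h1 h2
      omega
  -- the constant
  have hbd : BddAbove (Set.range fun m => (1 / (Qp (DD p₀) m : ℝ)) / del w α β p₀ m ^ (r : ℝ)) := by
    apply Filter.IsBoundedUnder.bddAbove_range
    refine ⟨1, ?_⟩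
    rw [eventually_map]
    obtain ⟨N, hN⟩ := exists_nat_ge ((r * (α + β + 4) + (r * (β + 2) +
      (1 - ε) * Real.log 2 * Lam (2 ^ p₀))) / g)
    filter_upwards [eventually_ge_atTop (2 ^ p₀), eventually_mul_le_Lam N] with m hm hmN
    have hmp : p₀ ≤ Nat.log 2 m := Nat.le_log_of_pow_le (by norm_num) hm
    have hQ0 : (0 : ℝ) < Qp (DD p₀) m := by exact_mod_cast Qp_pos hDpos m
    have hd0 := del_pos (w := w) (α := α) (β := β) hp₀1 m
    rw [div_le_one (by positivity)]
    have h1 : Real.exp (-(r * (w * Lam m + (α + β + 4) * m + β + 2))) ≤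
        del w α β p₀ m ^ (r : ℝ) := by
      have h2 := del_ge (w := w) (α := α) hβ0 hp₀1 hmp
      calc _ = Real.exp (-(w * Lam m + (α + β + 4) * m + β + 2)) ^ (r : ℝ) := by
            rw [← Real.exp_mul]; congr 1; ring
        _ ≤ _ := Real.rpow_le_rpow (Real.exp_pos _).le h2 (by positivity)
    refine le_trans ?_ h1
    have h2 : 1 / (Qp (DD p₀) m : ℝ) = Real.exp (-Real.log (Qp (DD p₀) m : ℝ)) := by
      rw [Real.exp_neg, Real.exp_log hQ0, one_div]
    rw [h2]
    apply Real.exp_le_exp.mpr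
    have h3 := hQge m hm
    have hm1 : (1 : ℝ) ≤ m := by
      have := Nat.one_le_two_pow (n := p₀)
      exact_mod_cast this.trans hm
    have h4 : (N : ℝ) * m ≤ Lam m := by exact_mod_cast hmN
    have h5 : r * (α + β + 4) + (r * (β + 2) + (1 - ε) * Real.log 2 * Lam (2 ^ p₀)) ≤ N * g := by
      rw [div_le_iff₀ hg0] at hN; exact hN
    have hpos1 : 0 ≤ (r : ℝ) * (β + 2) + (1 - ε) * Real.log 2 * Lam (2 ^ p₀) := by
      have h6 : 0 ≤ (1 - ε) * Real.log 2 := by
        have : 0 ≤ (r : ℝ) * w := by positivity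
        linarith
      have h7 : (0 : ℝ) ≤ Lam (2 ^ p₀) := Nat.cast_nonneg _
      positivity
    have h6 : r * (α + β + 4) * m + (r * (β + 2) + (1 - ε) * Real.log 2 * Lam (2 ^ p₀)) ≤
        g * Lam m := by
      calc r * (α + β + 4) * m + (r * (β + 2) + (1 - ε) * Real.log 2 * Lam (2 ^ p₀))
          ≤ (r * (α + β + 4) + (r * (β + 2) + (1 - ε) * Real.log 2 * Lam (2 ^ p₀))) * m := by
            nlinarith
        _ ≤ (N * g) * m := by gcongr
        _ = g * (N * m) := by ring
        _ ≤ g * Lam m := by gcongr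
    have h7 : g * Lam m = (1 - ε) * Real.log 2 * Lam m - r * w * Lam m := by rw [hg]; ring
    nlinarith
  obtain ⟨B, hB⟩ := hbd
  have hB' : ∀ m, (1 / (Qp (DD p₀) m : ℝ)) / del w α β p₀ m ^ (r : ℝ) ≤ B := fun m =>
    hB ⟨m, rfl⟩
  have hBnn : 0 ≤ B := by
    refine le_trans ?_ (hB' 0)
    have hd0 := del_pos (w := w) (α := α) (β := β) hp₀1 0
    positivity
  refine le_dimH_of_digits (DD p₀) hDpos hQ (Phi w α β p₀ ch) (del w α β p₀) (del_pos hp₀1) hsep r hr
    ⟨B, hBnn⟩ ?_ _ ?_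
  · intro m
    have hd0 := del_pos (w := w) (α := α) (β := β) hp₀1 m
    have := hB' m
    rw [div_le_iff₀ (by positivity)] at this
    exact this
  · intro d _
    exact Phi_mem C d (by rw [hxe]; exact hx) (by rw [hye]; exact hy)

end Pool.Agent.Lib.MP_71365f_an
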