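import Mathlib
import Pool.Agent.Lib.MP_71365f_an.Coeff
import Pool.Agent.Lib.MP_71365f_an.Defs

/-!
Covers of the image of a set which is close to a finite subset of a geometric progression.
-/

set_option autoImplicit false

open Finset Filter Topology

namespace Pool.Agent.Lib.MP_71365f_an

theorem prod_mem_Icc {x : ℕ → ℝ} (hx : ∀ j, x j ∈ Set.Icc (0 : ℝ) 1) (n : ℕ) :
    ∏ j ∈ range n, x j ∈ Set.Icc (0 : ℝ) 1 :=
  ⟨prod_nonneg fun j _ => (hx j).1, prod_le_one (fun j _ => (hx j).1) fun j _ => (hx j).2⟩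

theorem abs_prod_sub_le {x y : ℕ → ℝ} {ρ : ℝ} (hx : ∀ j, x j ∈ Set.Icc (0 : ℝ) 1)
    (hy : ∀ j, y j ∈ Set.Icc (0 : ℝ) 1) (h : ∀ j, |x j - y j| ≤ ρ) (n : ℕ) :
    |∏ j ∈ range n, x j - ∏ j ∈ range n, y j| ≤ n * ρ := by
  induction n with
  | zero => simp
  | succ n ih =>
    rw [prod_range_succ, prod_range_succ]
    have h1 : (∏ j ∈ range n, x j) * x n - (∏ j ∈ range n, y j) * y n =
        (∏ j ∈ range n, x j - ∏ j ∈ range n, y j) * x n + (∏ j ∈ range n, y j) * (x n - y n) := by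
      ring
    rw [h1]
    have hX := prod_mem_Icc hy n
    calc |(∏ j ∈ range n, x j - ∏ j ∈ range n, y j) * x n + (∏ j ∈ range n, y j) * (x n - y n)|
        ≤ |(∏ j ∈ range n, x j - ∏ j ∈ range n, y j) * x n| +
          |(∏ j ∈ range n, y j) * (x n - y n)| := abs_add_le _ _
      _ = |∏ j ∈ range n, x j - ∏ j ∈ range n, y j| * |x n| +
          |∏ j ∈ range n, y j| * |x n - y n| := by rw [abs_mul, abs_mul]
      _ ≤ (n * ρ) * 1 + 1 * ρ := by
          have e1 : |x n| ≤ 1 := by rw [abs_of_nonneg (hx n).1]; exact (hx n).2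
          have e2 : |∏ j ∈ range n, y j| ≤ 1 := by rw [abs_of_nonneg hX.1]; exact hX.2
          have hρ : 0 ≤ ρ := (abs_nonneg _).trans (h n)
          apply add_le_add
          · exact mul_le_mul ih e1 (abs_nonneg _) (by positivity)
          · exact mul_le_mul e2 (h n) (abs_nonneg _) (by norm_num)
      _ = ((n + 1 : ℕ) : ℝ) * ρ := by push_cast; ring

/-- Approximation of an element of the image. -/
theorem approx {a : ℕ → ℝ} (ha : ∀ i, 0 ≤ a i) (hs : Summable a) {θ : ℝ} (hθ0 : 0 < θ)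
    (hθ1 : θ < 1) {Δ : ℕ} {ρ : ℝ} {K : Set ℝ} (hK : ∀ x ∈ K, x ∈ Set.Icc (0 : ℝ) 1)
    (hKF : ∀ x ∈ K, ∃ m ≤ Δ, |x - θ ^ m| ≤ ρ) (I : ℕ) {z : ℝ} (hz : z ∈ psImage a K) :
    ∃ M : ℕ → ℕ, (∀ i, M i ≤ i * Δ) ∧
      |z - ∑ i ∈ range I, a i * θ ^ (M i)| ≤ I * (∑' i, a i) * ρ + ∑' i, a (i + I) := by
  obtain ⟨x, hx, rfl⟩ := hz
  choose m hm1 hm2 using fun i j => hKF (x i j) (hx i j)
  have hx01 : ∀ i j, x i j ∈ Set.Icc (0 : ℝ) 1 := fun i j => hK _ (hx i j)
  have hρ : 0 ≤ ρ := (abs_nonneg _).trans (hm2 0 0)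
  refine ⟨fun i => ∑ j ∈ range i, m i j, ?_, ?_⟩
  · intro i
    calc ∑ j ∈ range i, m i j ≤ ∑ j ∈ range i, Δ := sum_le_sum fun j _ => hm1 i j
      _ = i * Δ := by simp
  have hsum : Summable fun i => a i * ∏ j ∈ range i, x i j := by
    refine Summable.of_nonneg_of_le (fun i => mul_nonneg (ha i) (prod_mem_Icc (hx01 i) i).1)
      (fun i => ?_) hs
    calc a i * ∏ j ∈ range i, x i j ≤ a i * 1 :=
          mul_le_mul_of_nonneg_left (prod_mem_Icc (hx01 i) i).2 (ha i)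
      _ = a i := mul_one _
  rw [← hsum.sum_add_tsum_nat_add I]
  have h1 : |∑ i ∈ range I, a i * ∏ j ∈ range i, x i j -
      ∑ i ∈ range I, a i * θ ^ (∑ j ∈ range i, m i j)| ≤ I * (∑' i, a i) * ρ := by
    rw [← sum_sub_distrib]
    calc |∑ i ∈ range I, (a i * ∏ j ∈ range i, x i j - a i * θ ^ (∑ j ∈ range i, m i j))|
        ≤ ∑ i ∈ range I, |a i * ∏ j ∈ range i, x i j - a i * θ ^ (∑ j ∈ range i, m i j)| :=
          abs_sum_le_sum_abs _ _
      _ ≤ ∑ i ∈ range I, a i * (I * ρ) := by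
          apply sum_le_sum
          intro i hi
          rw [← mul_sub, abs_mul, abs_of_nonneg (ha i)]
          apply mul_le_mul_of_nonneg_left _ (ha i)
          rw [← prod_pow_eq_pow_sum]
          have hy01 : ∀ j, θ ^ (m i j) ∈ Set.Icc (0 : ℝ) 1 := fun j =>
            ⟨by positivity, pow_le_one₀ hθ0.le hθ1.le⟩
          refine (abs_prod_sub_le (hx01 i) hy01 (hm2 i) i).trans ?_
          have : (i : ℝ) ≤ I := by exact_mod_cast (mem_range.mp hi).le
          gcongr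
      _ = (∑ i ∈ range I, a i) * (I * ρ) := by rw [sum_mul]
      _ ≤ (∑' i, a i) * (I * ρ) := by
          apply mul_le_mul_of_nonneg_right _ (by positivity)
          exact hs.sum_le_tsum _ fun i _ => ha i
      _ = _ := by ring
  have hs' : Summable fun i => a (i + I) := (summable_nat_add_iff I).mpr hs
  have hsum' : Summable fun i => a (i + I) * ∏ j ∈ range (i + I), x (i + I) j :=
    (summable_nat_add_iff (f := fun i => a i * ∏ j ∈ range i, x i j) I).mpr hsum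
  have h2 : |∑' i, a (i + I) * ∏ j ∈ range (i + I), x (i + I) j| ≤ ∑' i, a (i + I) := by
    have hnn : ∀ i, 0 ≤ a (i + I) * ∏ j ∈ range (i + I), x (i + I) j := fun i =>
      mul_nonneg (ha _) (prod_mem_Icc (hx01 _) _).1
    rw [abs_of_nonneg (tsum_nonneg hnn)]
    refine Summable.tsum_le_tsum (fun i => ?_) hsum' hs'
    calc a (i + I) * ∏ j ∈ range (i + I), x (i + I) j ≤ a (i + I) * 1 :=
          mul_le_mul_of_nonneg_left (prod_mem_Icc (hx01 _) _).2 (ha _)
      _ = _ := mul_one _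
  calc |∑ i ∈ range I, a i * ∏ j ∈ range i, x i j +
        ∑' i, a (i + I) * ∏ j ∈ range (i + I), x (i + I) j -
        ∑ i ∈ range I, a i * θ ^ (∑ j ∈ range i, m i j)|
      = |(∑ i ∈ range I, a i * ∏ j ∈ range i, x i j -
        ∑ i ∈ range I, a i * θ ^ (∑ j ∈ range i, m i j)) +
        ∑' i, a (i + I) * ∏ j ∈ range (i + I), x (i + I) j| := by congr 1; ring
    _ ≤ _ := (abs_add_le _ _).trans (add_le_add h1 h2)

/-- The growth estimate behind the upper bound. -/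
theorem eventually_small {w r : ℝ} (hrw : Real.log 2 < r * w) (Δ : ℕ)
    {c κ : ℝ} (hc : 0 < c) (hκ : 0 < κ) :
    ∀ᶠ I : ℕ in atTop, ((2 * (Δ + 1)) ^ I * 2 ^ (Lam I) : ℝ) *
      (c * Real.exp (-(w * Lam I))) ^ r ≤ κ := by
  set g : ℝ := r * w - Real.log 2 with hg
  have hg0 : 0 < g := by linarith
  obtain ⟨C, hC⟩ := exists_nat_ge ((Real.log (2 * (Δ + 1)) + 1) / g)
  have hlim : Tendsto (fun I : ℕ => c ^ r * Real.exp (-(I : ℝ))) atTop (𝓝 (c ^ r * 0)) := by
    apply Tendsto.const_mul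
    exact Real.tendsto_exp_neg_atTop_nhds_zero.comp tendsto_natCast_atTop_atTop
  rw [mul_zero] at hlim
  filter_upwards [eventually_mul_le_Lam C, hlim.eventually (gt_mem_nhds hκ)] with I hI hI2
  refine le_trans ?_ hI2.le
  have h1 : (c * Real.exp (-(w * Lam I))) ^ r = c ^ r * Real.exp (-(r * w * Lam I)) := by
    rw [Real.mul_rpow hc.le (Real.exp_pos _).le, ← Real.exp_mul]
    congr 2; ring
  have hb : (0 : ℝ) < 2 * (Δ + 1) := by positivity
  have h2 : ((2 * (Δ + 1)) ^ I * 2 ^ (Lam I) : ℝ) =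
      Real.exp (I * Real.log (2 * (Δ + 1)) + Lam I * Real.log 2) := by
    rw [Real.exp_add, Real.exp_nat_mul, Real.exp_nat_mul, Real.exp_log hb,
      Real.exp_log (by norm_num)]
  rw [h1, h2]
  have h3 : Real.exp (I * Real.log (2 * (Δ + 1)) + Lam I * Real.log 2) *
      (c ^ r * Real.exp (-(r * w * Lam I))) = c ^ r *
      Real.exp (I * Real.log (2 * (Δ + 1)) + Lam I * Real.log 2 + -(r * w * Lam I)) := by
    rw [Real.exp_add _ (-(r * w * Lam I))]; ring
  rw [h3]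
  apply mul_le_mul_of_nonneg_left _ (Real.rpow_nonneg hc.le _)
  apply Real.exp_le_exp.mpr
  have h4 : (C : ℝ) * I ≤ Lam I := by exact_mod_cast hI
  have h5 : Real.log (2 * (Δ + 1)) + 1 ≤ C * g := by
    rw [div_le_iff₀ hg0] at hC; exact hC
  have h6 : (Real.log (2 * (Δ + 1)) + 1) * I ≤ g * Lam I := by
    calc (Real.log (2 * (Δ + 1)) + 1) * I ≤ (C * g) * I := by gcongr
      _ = g * (C * I) := by ring
      _ ≤ g * Lam I := by gcongr
  have h7 : g * Lam I = r * w * Lam I - Real.log 2 * Lam I := by rw [hg]; ring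
  linarith

theorem exists_cover {w r : ℝ} (hw : 0 < w) (hrw : Real.log 2 < r * w) {θ : ℝ}
    (hθ0 : 0 < θ) (hθ1 : θ < 1) (Δ : ℕ) {κ : ℝ} (hκ : 0 < κ) :
    ∃ ρ : ℝ, 0 < ρ ∧ ∀ K : Set ℝ, (∀ x ∈ K, x ∈ Set.Icc (0 : ℝ) 1) →
      (∀ x ∈ K, ∃ m ≤ Δ, |x - θ ^ m| ≤ ρ) → ∃ (T : Finset ℝ) (ε : ℝ), 0 < ε ∧ 2 * ε ≤ κ ∧
        (T.card : ℝ) * (2 * ε) ^ r ≤ κ ∧ psImage (coef w) K ⊆ ⋃ c ∈ T, Metric.closedBall c ε := by
  classical
  set cw : ℝ := (1 - Real.exp (-w))⁻¹ with hcw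
  have hcw0 : 0 < cw := by
    rw [hcw]
    apply inv_pos.mpr
    have : Real.exp (-w) < 1 := by rw [Real.exp_lt_one_iff]; linarith
    linarith
  have hlim : Tendsto (fun I : ℕ => 4 * cw * Real.exp (-(w * Lam I))) atTop
      (𝓝 (4 * cw * 0)) := by
    apply Tendsto.const_mul
    apply Real.tendsto_exp_neg_atTop_nhds_zero.comp
    apply Tendsto.const_mul_atTop hw
    apply tendsto_natCast_atTop_atTop.comp
    apply tendsto_atTop_mono (f := fun i => i - 2) (fun i => by have := le_Lam i; omega)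
    exact tendsto_sub_atTop_nat 2
  rw [mul_zero] at hlim
  obtain ⟨I, ⟨hI1, hI2⟩, hI3⟩ := (((eventually_small hrw Δ (c := 4 * cw) (by positivity) hκ).and
    (hlim.eventually (gt_mem_nhds hκ))).and (eventually_ge_atTop 2)).exists
  set E : ℝ := Real.exp (-(w * Lam I)) * cw with hE
  have hE0 : 0 < E := by positivity
  set A : ℝ := ∑' i, coef w i with hA
  have hA0 : 0 ≤ A := tsum_nonneg fun i => (coef_pos w i).le
  refine ⟨E / (I * A + 1), by positivity, fun K hK hKF => ?_⟩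
  have htail := tail_le hw I hI3
  refine ⟨(Finset.univ : Finset ((i : Fin I) → Fin (i * Δ + 1))).image
    (fun M => ∑ i : Fin I, coef w i * θ ^ (M i : ℕ)), 2 * E, by positivity, ?_, ?_, ?_⟩
  · have : 2 * (2 * E) = 4 * cw * Real.exp (-(w * Lam I)) := by rw [hE]; ring
    rw [this]; exact hI2.le
  · have h1 : 2 * (2 * E) = 4 * cw * Real.exp (-(w * Lam I)) := by rw [hE]; ring
    rw [h1]
    refine le_trans ?_ hI1
    apply mul_le_mul_of_nonneg_right _ (by positivity)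
    have h2 : ((Finset.univ : Finset ((i : Fin I) → Fin (i * Δ + 1))).image
        (fun M => ∑ i : Fin I, coef w i * θ ^ (M i : ℕ))).card ≤
        (2 * (Δ + 1)) ^ I * 2 ^ (Lam I) := by
      refine Finset.card_image_le.trans ?_
      rw [Finset.card_univ, Fintype.card_pi]
      simp only [Fintype.card_fin]
      rw [Fin.prod_univ_eq_prod_range (fun i => i * Δ + 1) I]
      exact prod_le Δ I
    exact_mod_cast h2
  · intro z hz
    obtain ⟨M, hM, hzM⟩ := approx (fun i => (coef_pos w i).le) (summable_coef hw) hθ0 hθ1 hK hKF I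
      hz
    simp only [Set.mem_iUnion, Finset.mem_image, Finset.mem_univ, true_and]
    refine ⟨∑ i : Fin I, coef w i * θ ^ (M i), ⟨fun i => ⟨M i, Nat.lt_succ_of_le (hM i)⟩, ?_⟩, ?_⟩
    · simp
    · rw [Metric.mem_closedBall, Real.dist_eq,
        Fin.sum_univ_eq_sum_range (fun i => coef w i * θ ^ (M i)) I]
      refine hzM.trans ?_
      have h3 : I * A * (E / (I * A + 1)) ≤ E := by
        rw [← mul_div_assoc, div_le_iff₀ (by positivity)]
        nlinarith
      linarith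

end Pool.Agent.Lib.MP_71365f_an
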