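import Mathlib
import Pool.Agent.Lib.MP_71365f_an.Upper

/-!
The typical compact set: upper bound for the dimension of the image, and existence of two positive
points.
-/

set_option autoImplicit false

open Finset Filter Topology TopologicalSpace MeasureTheory
open scoped NNReal ENNReal

namespace Pool.Agent.Lib.MP_71365f_an

/-- The set of reals underlying a nonempty compact subset of the unit interval. -/
def toSet (K : NonemptyCompacts (Set.Icc (0 : ℝ) 1)) : Set ℝ :=
  Subtype.val '' (K : Set (Set.Icc (0 : ℝ) 1))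

theorem toSet_subset (K : NonemptyCompacts (Set.Icc (0 : ℝ) 1)) :
    ∀ x ∈ toSet K, x ∈ Set.Icc (0 : ℝ) 1 := by
  rintro _ ⟨x, _, rfl⟩
  exact x.2

/-- Powers of `θ` form a net of the unit interval. -/
theorem exists_pow_near {θ η : ℝ} (hθ0 : 0 < θ) (h1 : 1 - θ ≤ η) {Δ : ℕ} (hΔ : θ ^ Δ ≤ η)
    {x : ℝ} (hx : x ∈ Set.Icc (0 : ℝ) 1) : ∃ m ≤ Δ, |x - θ ^ m| ≤ η := by
  classical
  by_cases hlt : x < θ ^ Δ
  · refine ⟨Δ, le_rfl, ?_⟩
    rw [abs_le]
    constructor <;> linarith [hx.1]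
  · have hex : ∃ m, θ ^ m ≤ x := ⟨Δ, not_lt.mp hlt⟩
    set m := Nat.find hex with hm
    have hm1 : θ ^ m ≤ x := Nat.find_spec hex
    have hm2 : m ≤ Δ := Nat.find_min' hex (not_lt.mp hlt)
    refine ⟨m, hm2, ?_⟩
    rcases Nat.eq_zero_or_pos m with h0 | h0
    · rw [h0, pow_zero] at hm1 ⊢
      have : x = 1 := le_antisymm hx.2 hm1
      rw [this, sub_self, abs_zero]
      exact (pow_pos hθ0 _).le.trans hΔ
    · obtain ⟨k, hk⟩ := Nat.exists_eq_add_of_le' h0
      have h2 : x < θ ^ k := not_le.mp (Nat.find_min hex (show k < Nat.find hex by omega))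
      have h3 : θ ^ m = θ ^ k * θ := by rw [hk, pow_succ]
      rcases le_or_gt θ 1 with hθ1 | hθ1
      · have h4 : θ ^ k ≤ 1 := pow_le_one₀ hθ0.le hθ1
        have h5 : θ ^ k - θ ^ m ≤ 1 - θ := by
          rw [h3]
          have : 0 ≤ (1 - θ ^ k) * (1 - θ) := mul_nonneg (by linarith) (by linarith)
          nlinarith
        rw [abs_le]
        constructor <;> linarith [pow_pos hθ0 m]
      · exfalso
        have h4 : 1 ≤ θ ^ m := one_le_pow₀ hθ1.le
        have h5 : x = 1 := le_antisymm hx.2 (h4.trans hm1)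
        have h6 : θ ^ 0 ≤ x := by rw [pow_zero, h5]
        have := Nat.find_min' hex h6
        omega

/-- The property of the sets close to finite sets. -/
def Good (w r κ : ℝ) (K : Set ℝ) : Prop :=
  (∃ (T : Finset ℝ) (ε : ℝ), 0 < ε ∧ 2 * ε ≤ κ ∧ (T.card : ℝ) * (2 * ε) ^ r ≤ κ ∧
    psImage (coef w) K ⊆ ⋃ c ∈ T, Metric.closedBall c ε) ∧ ∃ x ∈ K, ∃ y ∈ K, 0 < x ∧ x < y

theorem good_mem_residual {w r : ℝ} (hw : 0 < w) (hrw : Real.log 2 < r * w) {κ : ℝ}
    (hκ : 0 < κ) : {K : NonemptyCompacts (Set.Icc (0 : ℝ) 1) | Good w r κ (toSet K)} ∈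
      residual (NonemptyCompacts (Set.Icc (0 : ℝ) 1)) := by
  classical
  set P : Set (NonemptyCompacts (Set.Icc (0 : ℝ) 1)) := {K | Good w r κ (toSet K)} with hP
  have hdense : Dense (interior P) := by
    rw [Metric.dense_iff]
    intro K₀ δ hδ
    -- the net
    set η : ℝ := min (δ / 4) (1 / 2) with hη
    have hη0 : 0 < η := by rw [hη]; positivity
    have hηδ : η ≤ δ / 4 := min_le_left _ _
    have hη2 : η ≤ 1 / 2 := min_le_right _ _
    set θ : ℝ := 1 - η with hθ
    have hθ0 : 0 < θ := by rw [hθ]; linarith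
    have hθ1 : θ < 1 := by rw [hθ]; linarith
    obtain ⟨Δ, hΔ⟩ := exists_pow_lt_of_lt_one hη0 hθ1
    have hθI : ∀ m : ℕ, θ ^ m ∈ Set.Icc (0 : ℝ) 1 := fun m =>
      ⟨by positivity, pow_le_one₀ hθ0.le hθ1.le⟩
    set pt : ℕ → Set.Icc (0 : ℝ) 1 := fun m => ⟨θ ^ m, hθI m⟩ with hpt
    set F : Finset (Set.Icc (0 : ℝ) 1) := ((range (Δ + 2)).filter
      (fun m => ∃ z ∈ K₀, |(z : ℝ) - θ ^ m| ≤ 2 * η)).image pt with hF
    -- every point of K₀ has two neighbours in the net
    have hnear : ∀ z ∈ K₀, ∃ m ≤ Δ, |(z : ℝ) - θ ^ m| ≤ η := fun z _ =>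
      exists_pow_near hθ0 (by rw [hθ]; linarith) hΔ.le z.2
    have hmemF : ∀ z ∈ K₀, ∀ m ≤ Δ, |(z : ℝ) - θ ^ m| ≤ η → pt m ∈ F ∧ pt (m + 1) ∈ F := by
      intro z hz m hm hzm
      constructor
      · refine Finset.mem_image_of_mem _ (Finset.mem_filter.mpr ⟨Finset.mem_range.mpr (by omega),
          z, hz, by linarith⟩)
      · refine Finset.mem_image_of_mem _ (Finset.mem_filter.mpr ⟨Finset.mem_range.mpr (by omega),
          z, hz, ?_⟩)
        have h1 : |θ ^ m - θ ^ (m + 1)| ≤ η := by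
          rw [pow_succ]
          have h2 : θ ^ m ≤ 1 := (hθI m).2
          have h3 : 0 < θ ^ m := by positivity
          have h4 : θ ^ m - θ ^ m * θ = θ ^ m * η := by rw [hθ]; ring
          rw [h4, abs_of_nonneg (by positivity)]
          nlinarith
        calc |(z : ℝ) - θ ^ (m + 1)| = |((z : ℝ) - θ ^ m) + (θ ^ m - θ ^ (m + 1))| := by
              congr 1; ring
          _ ≤ |(z : ℝ) - θ ^ m| + |θ ^ m - θ ^ (m + 1)| := abs_add_le _ _
          _ ≤ 2 * η := by linarith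
    obtain ⟨z₀, hz₀⟩ := K₀.nonempty
    obtain ⟨m₀, hm₀, hzm₀⟩ := hnear z₀ hz₀
    obtain ⟨hF1, hF2⟩ := hmemF z₀ hz₀ m₀ hm₀ hzm₀
    set K₁ : NonemptyCompacts (Set.Icc (0 : ℝ) 1) :=
      ⟨⟨(F : Set (Set.Icc (0 : ℝ) 1)), F.finite_toSet.isCompact⟩, ⟨_, hF1⟩⟩ with hK₁
    have hK₁F : ∀ x, x ∈ (K₁ : Set (Set.Icc (0 : ℝ) 1)) ↔ x ∈ F := fun x => Iff.rfl
    obtain ⟨ρ, hρ0, hρ⟩ := exists_cover hw hrw hθ0 hθ1 (Δ + 1) hκ
    set a : ℝ := θ ^ (m₀ + 1) with ha
    set b : ℝ := θ ^ m₀ with hb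
    have ha0 : 0 < a := by rw [ha]; positivity
    have hab : a < b := by
      rw [ha, hb, pow_succ]
      have : 0 < θ ^ m₀ := by positivity
      nlinarith
    set ρ' : ℝ := min ρ (min a ((b - a) / 2)) with hρ'
    have hρ'0 : 0 < ρ' := by
      rw [hρ']
      refine lt_min hρ0 (lt_min ha0 (by linarith))
    have hρ'1 : ρ' ≤ ρ := min_le_left _ _
    have hρ'2 : ρ' ≤ a := (min_le_right _ _).trans (min_le_left _ _)
    have hρ'3 : ρ' ≤ (b - a) / 2 := (min_le_right _ _).trans (min_le_right _ _)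
    have hball : Metric.ball K₁ ρ' ⊆ P := by
      intro K hK
      rw [Metric.mem_ball, Metric.NonemptyCompacts.dist_eq] at hK
      have hfin : Metric.hausdorffEDist (K : Set (Set.Icc (0 : ℝ) 1)) K₁ ≠ ⊤ :=
        Metric.hausdorffEDist_ne_top_of_nonempty_of_bounded K.nonempty K₁.nonempty
          K.isCompact.isBounded K₁.isCompact.isBounded
      refine ⟨hρ (toSet K) (toSet_subset K) ?_, ?_⟩
      · rintro _ ⟨x, hx, rfl⟩
        obtain ⟨y, hy, hxy⟩ := Metric.exists_dist_lt_of_hausdorffDist_lt hx hK hfin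
        rw [hK₁F, hF, Finset.mem_image] at hy
        obtain ⟨m, hm, rfl⟩ := hy
        refine ⟨m, ?_, ?_⟩
        · have := Finset.mem_range.mp (Finset.mem_filter.mp hm).1
          omega
        · have : dist x (pt m) = |(x : ℝ) - θ ^ m| := rfl
          rw [this] at hxy
          linarith
      · obtain ⟨x, hx, hxa⟩ := Metric.exists_dist_lt_of_hausdorffDist_lt' ((hK₁F _).mpr hF2) hK hfin
        obtain ⟨y, hy, hyb⟩ := Metric.exists_dist_lt_of_hausdorffDist_lt' ((hK₁F _).mpr hF1) hK hfin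
        have e1 : dist x (pt (m₀ + 1)) = |(x : ℝ) - a| := rfl
        have e2 : dist y (pt m₀) = |(y : ℝ) - b| := rfl
        rw [e1, abs_lt] at hxa
        rw [e2, abs_lt] at hyb
        refine ⟨x, ⟨x, hx, rfl⟩, y, ⟨y, hy, rfl⟩, ?_, ?_⟩ <;> linarith
    refine ⟨K₁, ?_, ?_⟩
    · rw [Metric.mem_ball, Metric.NonemptyCompacts.dist_eq]
      have h2 : Metric.hausdorffDist (K₁ : Set (Set.Icc (0 : ℝ) 1)) K₀ ≤ 2 * η := by
        apply Metric.hausdorffDist_le_of_mem_dist (by positivity)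
        · intro x hx
          rw [hK₁F, hF, Finset.mem_image] at hx
          obtain ⟨m, hm, rfl⟩ := hx
          obtain ⟨z, hz, hzm⟩ := (Finset.mem_filter.mp hm).2
          refine ⟨z, hz, ?_⟩
          rw [dist_comm]
          exact hzm
        · intro z hz
          obtain ⟨m, hm, hzm⟩ := hnear z hz
          refine ⟨pt m, (hK₁F _).mpr (hmemF z hz m hm hzm).1, ?_⟩
          have : dist z (pt m) = |(z : ℝ) - θ ^ m| := rfl
          rw [this]
          linarith
      linarith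
    · exact interior_mono hball (by rw [Metric.isOpen_ball.interior_eq]; exact Metric.mem_ball_self hρ'0)
  exact Filter.mem_of_superset (residual_of_dense_open isOpen_interior hdense) interior_subset

theorem dimH_le_of_good {w : ℝ} {r : ℝ≥0} {K : Set ℝ}
    (h : ∀ n : ℕ, Good w r (1 / ((n : ℝ) + 1)) K) : dimH (psImage (coef w) K) ≤ r := by
  choose T ε hε0 hε1 hT hcov using fun n => (h n).1
  have hdiam : ∀ (n : ℕ) (c : ℝ), Metric.ediam (Metric.closedBall c (ε n)) =
      ENNReal.ofReal (2 * ε n) := by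
    intro n c
    rw [Real.closedBall_eq_Icc, Real.ediam_Icc]
    congr 1
    ring
  apply dimH_le_of_hausdorffMeasure_ne_top
  have h1 := Measure.hausdorffMeasure_le_liminf_sum (r : ℝ) (psImage (coef w) K)
    (l := (atTop : Filter ℕ)) (fun n => ENNReal.ofReal (1 / ((n : ℝ) + 1)))
    (by
      have := ENNReal.tendsto_ofReal (tendsto_one_div_add_atTop_nhds_zero_nat (𝕜 := ℝ))
      simpa using this)
    (ι := fun n => T n) (fun n c => Metric.closedBall (c : ℝ) (ε n))
    (Eventually.of_forall fun n c => by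
      rw [hdiam]
      exact ENNReal.ofReal_le_ofReal (hε1 n))
    (Eventually.of_forall fun n => by
      intro z hz
      have := hcov n hz
      simp only [Set.mem_iUnion] at this ⊢
      obtain ⟨c, hc, hz⟩ := this
      exact ⟨⟨c, hc⟩, hz⟩)
  refine ne_top_of_le_ne_top ENNReal.one_ne_top (h1.trans ?_)
  have h2 : ∀ n : ℕ, ∑ c : T n, Metric.ediam (Metric.closedBall (c : ℝ) (ε n)) ^ (r : ℝ) ≤ 1 := by
    intro n
    simp only [hdiam, Finset.sum_const, Finset.card_univ, Fintype.card_coe, nsmul_eq_mul]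
    have hpos := hε0 n
    rw [ENNReal.ofReal_rpow_of_nonneg (by positivity) (NNReal.coe_nonneg r),
      show ((T n).card : ℝ≥0∞) = ENNReal.ofReal ((T n).card : ℝ) by simp,
      ← ENNReal.ofReal_mul (by positivity)]
    rw [ENNReal.ofReal_le_one]
    refine (hT n).trans ?_
    rw [div_le_one (by positivity)]
    have : (0 : ℝ) ≤ n := Nat.cast_nonneg n
    linarith
  refine (Filter.liminf_le_liminf (Eventually.of_forall h2)).trans ?_
  simp

end Pool.Agent.Lib.MP_71365f_an
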